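import Pool.Agent.LibBU85.Def

/-!
BU85 A1. The standard ordinals of the model: elementary facts.

Plan. `inj`: if `γ < β ≤ α` and `j β = j γ` then `E (j γ) (j γ)` by `C.st`, against `not_mem_self`
(LibBc83.U1). `mem_iff` from `C.st` and `inj`. `emp`, `suc`: `C.st` (`γ < β + 1 ↔ γ ≤ β`, `Order.lt_add_one_iff`
or `Order.lt_succ_iff`). `one_iff`: the members of `j β` are the `j γ`, `γ < β`, and `Emp E (j γ) ↔ γ = 0`;
an empty set is `j 0` (`emp_uniq`). `gt_one_iff`: a set `o` with `IsOne E o` is `j 1` (extensionality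
`C.zf.ext`). `mem_w`: the set `j ω` is inductive (`C.inf`), so by
`C.om.2` each member of `w` is in `j ω`, hence `j n` (`Ordinal.lt_omega0`); conversely `jn j n` is in `w`
by induction on `n` (`om_zero`, `om_suc`, `emp_uniq`, `suc_uniq`). `w_eq`: `C.zf.ext`.
-/

namespace Pool.Agent.LibBU85

open Pool.Agent.LibBc83 Pool.Agent.LibBd83

variable {M : Type} {E : M → M → Prop} {w : M} {j : Ordinal.{0} → M} {α : Ordinal.{0}}

theorem Cx.inj (C : Cx E w j α) {β γ : Ordinal.{0}} (hβ : β ≤ α) (hγ : γ ≤ α) (h : j β = j γ) :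
    β = γ := by
  rcases lt_trichotomy β γ with h1 | h1 | h1
  · exfalso
    have h2 : E (j β) (j γ) := (C.st γ hγ _).2 ⟨β, h1, rfl⟩
    rw [h] at h2
    exact not_mem_self C.zf _ h2
  · exact h1
  · exfalso
    have h2 : E (j γ) (j β) := (C.st β hβ _).2 ⟨γ, h1, rfl⟩
    rw [h] at h2
    exact not_mem_self C.zf _ h2

theorem Cx.mem_iff (C : Cx E w j α) {β γ : Ordinal.{0}} (hβ : β ≤ α) (hγ : γ ≤ α) :
    E (j γ) (j β) ↔ γ < β := by
  constructor
  · intro h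
    obtain ⟨δ, hδ, h1⟩ := (C.st β hβ _).1 h
    have h2 := C.inj hγ (hδ.le.trans hβ) h1
    rw [h2]
    exact hδ
  · intro h
    exact (C.st β hβ _).2 ⟨γ, h, rfl⟩

theorem Cx.emp (C : Cx E w j α) : Emp E (j 0) := by
  intro t ht
  obtain ⟨γ, hγ, -⟩ := (C.st 0 zero_le _).1 ht
  exact absurd hγ (not_lt.2 zero_le)

theorem Cx.emp_iff (C : Cx E w j α) {β : Ordinal.{0}} (hβ : β ≤ α) : Emp E (j β) ↔ β = 0 := by
  constructor
  · intro h
    by_contra h0
    exact h (j 0) ((C.st β hβ _).2 ⟨0, pos_iff_ne_zero.2 h0, rfl⟩)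
  · rintro rfl
    exact C.emp

theorem Cx.suc (C : Cx E w j α) {β : Ordinal.{0}} (hβ : β + 1 ≤ α) : Suc E (j (β + 1)) (j β) := by
  intro t
  rw [C.st _ hβ, C.st β ((lt_add_one β).le.trans hβ)]
  constructor
  · rintro ⟨γ, hγ, rfl⟩
    rcases (Order.lt_add_one_iff.1 hγ).lt_or_eq with h | h
    · exact Or.inl ⟨γ, h, rfl⟩
    · exact Or.inr (by rw [h])
  · rintro (⟨γ, hγ, rfl⟩ | rfl)
    · exact ⟨γ, hγ.trans (lt_add_one β), rfl⟩
    · exact ⟨β, lt_add_one β, rfl⟩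

theorem Cx.one_iff (C : Cx E w j α) {β : Ordinal.{0}} (hβ : β ≤ α) :
    IsOne E (j β) ↔ β = 1 := by
  have hlt : ∀ γ : Ordinal.{0}, γ < 1 ↔ γ = 0 := fun γ => Order.lt_one_iff
  constructor
  · intro h
    have h0 : E (j 0) (j β) := (h _).2 C.emp
    have h1 : 0 < β := (C.mem_iff hβ zero_le).1 h0
    by_contra hne
    have h2 : 1 < β := by
      rcases lt_trichotomy β 1 with h3 | h3 | h3
      · exact absurd ((hlt _).1 h3) h1.ne'
      · exact absurd h3 hne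
      · exact h3
    have h3 : E (j 1) (j β) := (C.st β hβ _).2 ⟨1, h2, rfl⟩
    have h4 : Emp E (j 1) := (h _).1 h3
    exact one_ne_zero ((C.emp_iff (h2.le.trans hβ)).1 h4)
  · rintro rfl t
    rw [C.st _ hβ]
    constructor
    · rintro ⟨γ, hγ, rfl⟩
      rw [(hlt _).1 hγ]
      exact C.emp
    · intro ht
      exact ⟨0, zero_lt_one, emp_uniq C.zf ht C.emp⟩

theorem Cx.gt_one_iff (C : Cx E w j α) {β : Ordinal.{0}} (hβ : β ≤ α) :
    GtOne E (j β) ↔ 1 < β := by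
  have h1 : (1 : Ordinal.{0}) ≤ α := Ordinal.one_lt_omega0.le.trans C.inf
  have h2 : IsOne E (j 1) := (C.one_iff h1).2 rfl
  constructor
  · rintro ⟨o, ho, h⟩
    have h3 : o = j 1 := C.zf.ext _ _ fun t => (ho t).trans (h2 t).symm
    rw [h3] at h
    exact (C.mem_iff hβ h1).1 h
  · intro h
    exact ⟨j 1, h2, (C.mem_iff hβ h1).2 h⟩

theorem Cx.nat_le (C : Cx E w j α) (n : ℕ) : (n : Ordinal.{0}) ≤ α := by
  exact (Ordinal.natCast_lt_omega0 n).le.trans C.inf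

private theorem A1_zero (C : Cx E w j α) : Emp E (jn j 0) := by
  have h := C.emp
  unfold jn
  simpa using h

private theorem A1_suc (C : Cx E w j α) (n : ℕ) : Suc E (jn j (n + 1)) (jn j n) := by
  have h : ((n : Ordinal.{0}) + 1) ≤ α := by
    have := C.nat_le (n + 1)
    simpa using this
  have h1 := C.suc h
  unfold jn
  simpa using h1

private theorem A1_mem (C : Cx E w j α) (n : ℕ) : E (jn j n) w := by
  induction n with
  | zero =>
    obtain ⟨z, hz, hzw⟩ := om_zero C.om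
    rw [emp_uniq C.zf (A1_zero C) hz]
    exact hzw
  | succ n ih =>
    obtain ⟨m, hm, hmw⟩ := om_suc C.om ih
    rw [suc_uniq C.zf (A1_suc C n) hm]
    exact hmw

private theorem A1_omega (C : Cx E w j α) (x : M) :
    E x (j Ordinal.omega0) ↔ ∃ n : ℕ, x = jn j n := by
  rw [C.st _ C.inf]
  constructor
  · rintro ⟨γ, hγ, rfl⟩
    obtain ⟨n, rfl⟩ := Ordinal.lt_omega0.1 hγ
    exact ⟨n, rfl⟩
  · rintro ⟨n, rfl⟩
    exact ⟨n, Ordinal.natCast_lt_omega0 n, rfl⟩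

private theorem A1_ind (C : Cx E w j α) : Ind E (j Ordinal.omega0) := by
  refine ⟨⟨jn j 0, A1_zero C, (A1_omega C _).2 ⟨0, rfl⟩⟩, ?_⟩
  intro x hx
  obtain ⟨n, rfl⟩ := (A1_omega C _).1 hx
  exact ⟨jn j (n + 1), A1_suc C n, (A1_omega C _).2 ⟨n + 1, rfl⟩⟩

theorem Cx.w_eq (C : Cx E w j α) : w = j Ordinal.omega0 := by
  refine C.zf.ext _ _ fun t => ⟨fun h => C.om.2 _ (A1_ind C) t h, fun h => ?_⟩
  obtain ⟨n, rfl⟩ := (A1_omega C _).1 h
  exact A1_mem C n

theorem Cx.mem_w (C : Cx E w j α) {x : M} : E x w ↔ ∃ n : ℕ, x = jn j n := by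
  constructor
  · intro h
    exact (A1_omega C x).1 (C.om.2 _ (A1_ind C) x h)
  · rintro ⟨n, rfl⟩
    exact A1_mem C n

theorem Cx.jn_mem (C : Cx E w j α) (n : ℕ) : E (jn j n) w := by
  exact A1_mem C n

theorem Cx.jn_inj (C : Cx E w j α) {m n : ℕ} : jn j m = jn j n ↔ m = n := by
  constructor
  · intro h
    exact Nat.cast_injective (C.inj (C.nat_le m) (C.nat_le n) h)
  · rintro rfl
    rfl

theorem Cx.jn_zero (C : Cx E w j α) : Emp E (jn j 0) := by
  exact A1_zero C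

theorem Cx.jn_suc (C : Cx E w j α) (n : ℕ) : Suc E (jn j (n + 1)) (jn j n) := by
  exact A1_suc C n

theorem Cx.jn_mem_jn (C : Cx E w j α) {m n : ℕ} : E (jn j m) (jn j n) ↔ m < n := by
  unfold jn
  rw [C.mem_iff (C.nat_le n) (C.nat_le m)]
  exact Nat.cast_lt

end Pool.Agent.LibBU85
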