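import Pool.Agent.LibBU85.A1

/-!
BU85 A2. Sequences and reals of the model, seen from outside.

Plan. `mk_seq`: `exists_seq` (LibBc83.T2) with `C.mem_w`. `rel_rv`: for a real `x` there is exactly one
`m` with `Rel E x (jn j n) m`, and it is in `w` (`real_mem`, LibBc83.T1), so it is `jn j m`; unfold `rv`,
`dif_pos`, `Exists.choose_spec`, `real_uniq`. `real_ext'`: `real_ext` (U2). `agr_iff`: the members of
`jn j n` are the `jn j i`, `i < n` (`C.st`, `Ordinal` below a natural number: `Ordinal.lt_omega0`,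
`Nat.cast_lt`). `exists_real`: `exists_seq`; its second conclusion gives the first half of `Real`.
`prep_iff`: unfold `Prep`; `C.jn_zero`, `C.jn_suc`, `emp_uniq`, `suc_uniq`, `rel_rv`.
-/

namespace Pool.Agent.LibBU85

open Pool.Agent.LibBc83 Pool.Agent.LibBd83

variable {M : Type} {E : M → M → Prop} {w : M} {j : Ordinal.{0} → M} {α : Ordinal.{0}}

/-- sequences of the model defined by a formula -/
theorem Cx.mk_seq (C : Cx E w j α) (f : Fm) (v : ℕ → M)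
    (h : ∀ n : ℕ, ∃ z, ∀ z', Sat E f (cons (jn j n) (cons z' v)) ↔ z' = z) :
    ∃ g, Seq E w g ∧ ∀ (n : ℕ) z, Rel E g (jn j n) z ↔ Sat E f (cons (jn j n) (cons z v)) := by
  obtain ⟨g, h1, -, h3⟩ := exists_seq C.zf (w := w) f v (by
    intro n hn
    obtain ⟨k, rfl⟩ := C.mem_w.1 hn
    exact h k)
  exact ⟨g, h1, fun n z => h3 (jn j n) z (C.jn_mem n)⟩

theorem Cx.seq_val (C : Cx E w j α) {g : M} (hg : Seq E w g) (n : ℕ) :
    ∃ z, ∀ z', Rel E g (jn j n) z' ↔ z' = z :=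
  hg (jn j n) (C.jn_mem n)

theorem Cx.rel_rv (C : Cx E w j α) {x : M} (hx : Real E w x) (n : ℕ) (z : M) :
    Rel E x (jn j n) z ↔ z = jn j (rv E j x n) := by
  obtain ⟨a, ha⟩ := hx.2 (jn j n) (C.jn_mem n)
  have h1 : Rel E x (jn j n) a := (ha a).2 rfl
  obtain ⟨m, hm⟩ := C.mem_w.1 (real_mem C.zf hx h1).2
  have hex : ∃ m : ℕ, Rel E x (jn j n) (jn j m) := ⟨m, by rw [← hm]; exact h1⟩
  have h2 : jn j (rv E j x n) = a := by
    unfold rv
    rw [dif_pos hex]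
    exact (ha _).1 hex.choose_spec
  rw [h2]
  exact ha z

theorem Cx.real_ext' (C : Cx E w j α) {x y : M} (hx : Real E w x) (hy : Real E w y)
    (h : ∀ n, rv E j x n = rv E j y n) : x = y := by
  refine real_ext C.zf hx hy ?_
  intro n hn m
  obtain ⟨k, rfl⟩ := C.mem_w.1 hn
  rw [C.rel_rv hx k m, C.rel_rv hy k m, h k]

theorem Cx.agr_iff (C : Cx E w j α) {x y : M} (hx : Real E w x) (hy : Real E w y) (n : ℕ) :
    Agr E (jn j n) x y ↔ ∀ i < n, rv E j x i = rv E j y i := by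
  constructor
  · intro h i hi
    have h1 := (h (jn j i) (C.jn_mem_jn.2 hi) (jn j (rv E j x i))).1 ((C.rel_rv hx i _).2 rfl)
    exact C.jn_inj.1 ((C.rel_rv hy i _).1 h1)
  · intro h i hi m
    obtain ⟨γ, hγ, rfl⟩ := (C.st (n : Ordinal.{0}) (C.nat_le n) i).1 hi
    obtain ⟨l, rfl⟩ := Ordinal.lt_omega0.1 (hγ.trans (Ordinal.natCast_lt_omega0 n))
    have hl : l < n := by exact_mod_cast hγ
    have h1 := C.rel_rv hx l m
    have h2 := C.rel_rv hy l m
    rw [h l hl] at h1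
    exact h1.trans h2.symm

theorem Cx.exists_real (C : Cx E w j α) (f : Fm) (v : ℕ → M) (g : ℕ → ℕ)
    (h : ∀ (n : ℕ) (z : M), Sat E f (cons (jn j n) (cons z v)) ↔ z = jn j (g n)) :
    ∃ x, Real E w x ∧ ∀ n, rv E j x n = g n := by
  obtain ⟨x, h1, h2, h3⟩ := exists_seq C.zf (w := w) f v (by
    intro n hn
    obtain ⟨k, rfl⟩ := C.mem_w.1 hn
    exact ⟨jn j (g k), fun z' => h k z'⟩)
  have hx : Real E w x := by
    refine ⟨?_, h1⟩
    intro p hp
    obtain ⟨n, z, hn, hop⟩ := h2 p hp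
    obtain ⟨k, rfl⟩ := C.mem_w.1 hn
    refine ⟨jn j k, z, hn, ?_, hop⟩
    have h4 := (h3 (jn j k) z hn).1 ⟨p, hop, hp⟩
    rw [(h k z).1 h4]
    exact C.jn_mem _
  refine ⟨x, hx, fun n => ?_⟩
  have h5 : Rel E x (jn j n) (jn j (g n)) :=
    (h3 (jn j n) _ (C.jn_mem n)).2 ((h n _).2 rfl)
  exact (C.jn_inj.1 ((C.rel_rv hx n _).1 h5)).symm

theorem Cx.prep_iff (C : Cx E w j α) {n : ℕ} {x z : M} (hx : Real E w x) (hz : Real E w z) :
    Prep E w (jn j n) x z ↔ rv E j z 0 = n ∧ ∀ l, rv E j z (l + 1) = rv E j x l := by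
  constructor
  · rintro ⟨-, h1, h2⟩
    constructor
    · exact (C.jn_inj.1 ((C.rel_rv hz 0 _).1 (h1 _ C.jn_zero))).symm
    · intro l
      have h3 := h2 (jn j l) (jn j (l + 1)) (jn j (rv E j x l)) (C.jn_mem l) (C.jn_suc l)
        ((C.rel_rv hx l _).2 rfl)
      exact (C.jn_inj.1 ((C.rel_rv hz (l + 1) _).1 h3)).symm
  · rintro ⟨h1, h2⟩
    refine ⟨hz, fun o ho => ?_, fun l l' m hl hl' hm => ?_⟩
    · rw [emp_uniq C.zf ho C.jn_zero, C.rel_rv hz 0, h1]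
    · obtain ⟨k, rfl⟩ := C.mem_w.1 hl
      rw [suc_uniq C.zf hl' (C.jn_suc k), C.rel_rv hz (k + 1), h2 k]
      exact (C.rel_rv hx k m).1 hm

end Pool.Agent.LibBU85
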