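import Pool.Agent.LibBU85.A2

/-!
BU85 A3a. Recursion on the natural numbers in the model.

Plan. Call `h` an attempt up to `n` if `Seq E w h`, `Rel E h (jn j 0) x₀`, and for all `i` in `jn j n`, all
`i'` with `Suc E i' i` and all `z`, `z'` with `Rel E h i z`, `Rel E h i' z'`: `f (z, z', v)`. This is a
formula `Att (h, n)` with parameters `w`, `x₀`, `jn j 0`, `v` (rename `f` with `Fm.ren`, `sat_ren`; put
the parameters after the variables, as in LibBc83/T2.lean). By induction on `n : ℕ` (outside) there is an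
attempt up to `n` with all values up to `n` in `P`, and two attempts up to `n` agree at all `i ≤ n`
(`hs`). Step: if `h` is an attempt up to `n` with value `z` at `n` and `y` is the next value, then
`mk_seq` with the formula `(i ≠ n + 1 and z = h (i)) or (i = n + 1 and z = y)`. Then `g` is given by
`mk_seq` with the formula: there is an attempt `h` up to `i` with `Rel E h i z`.
-/

namespace Pool.Agent.LibBU85

open Pool.Agent.LibBc83 Pool.Agent.LibBd83

variable {M : Type} {E : M → M → Prop} {w : M} {j : Ordinal.{0} → M} {α : Ordinal.{0}}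

/-- the renaming of the variables of the step formula -/
private def A3a_rho : ℕ → ℕ
  | 0 => 1
  | 1 => 0
  | k + 2 => k + 10

private theorem A3a_comp (z' z i' i h a b c d e : M) (v : ℕ → M) :
    cons z' (cons z (cons i' (cons i (cons h (cons a (cons b (cons c (cons d (cons e v)))))))))
      ∘ A3a_rho = cons z (cons z' v) := by
  funext k
  match k with
  | 0 => rfl
  | 1 => rfl
  | k + 2 => rfl

/-- there is an attempt `h` up to `i` with value `z` at `i`; the variables are `i`, `z`, `w`, `x₀`,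
the number zero, and those of `v` -/
private def A3a_F (f : Fm) : Fm :=
  .ex (.and (.seq 3 0) (.and (.rel 0 5 4) (.and
    (.all (.imp (.mem 0 2) (.all (.imp (.suc 0 1) (.all (.imp (.rel 3 2 0)
      (.all (.imp (.rel 4 2 0) (f.ren A3a_rho)))))))))
    (.rel 0 1 2))))

private theorem A3a_sat (f : Fm) (v : ℕ → M) (i z x₀ o : M) :
    Sat E (A3a_F f) (cons i (cons z (cons w (cons x₀ (cons o v))))) ↔
      ∃ h, Seq E w h ∧ Rel E h o x₀ ∧
        (∀ i1, E i1 i → ∀ i1', Suc E i1' i1 → ∀ z1, Rel E h i1 z1 → ∀ z1', Rel E h i1' z1' →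
          Sat E f (cons z1 (cons z1' v))) ∧ Rel E h i z := by
  unfold A3a_F
  simp only [sat_ex, sat_and, sat_all, sat_imp, sat_ren, A3a_comp, sat_seq, sat_rel, sat_mem,
    sat_suc, cons_zero, cons_succ]

private theorem A3a_mem_jn (C : Cx E w j α) (n : ℕ) {x : M} (hx : E x (jn j n)) :
    ∃ m, m < n ∧ x = jn j m := by
  obtain ⟨γ, hγ, rfl⟩ := (C.st _ (C.nat_le n) x).1 hx
  obtain ⟨m, rfl⟩ := Ordinal.lt_omega0.1 (hγ.trans (Ordinal.natCast_lt_omega0 n))
  exact ⟨m, Nat.cast_lt.1 hγ, rfl⟩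

private theorem A3a_val (C : Cx E w j α) {g : M} (hg : Seq E w g) {n : ℕ} {a b : M}
    (h : Rel E g (jn j n) a) (h' : Rel E g (jn j n) b) : a = b :=
  seq_uniq hg (C.jn_mem n) h h'

/-- the sequence from outside is approximated in the model -/
private theorem A3a_ex (C : Cx E w j α) (xs : ℕ → M) (n : ℕ) :
    ∃ h, Seq E w h ∧ ∀ m ≤ n, Rel E h (jn j m) (xs m) := by
  induction n with
  | zero =>
    obtain ⟨g, hg, hgr⟩ := C.mk_seq (.eq 1 2) (fun _ => xs 0) (fun n => ⟨xs 0, fun z' => by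
      simp only [sat_eq]; exact Iff.rfl⟩)
    refine ⟨g, hg, fun m hm => ?_⟩
    have hm0 : m = 0 := Nat.le_zero.1 hm
    rw [hm0]
    exact (hgr 0 (xs 0)).2 rfl
  | succ n ih =>
    obtain ⟨h, hh, hr⟩ := ih
    have key : ∀ i z, Sat E (.or (.and (.neg (.eq 0 3)) (.rel 2 0 1)) (.and (.eq 0 3) (.eq 1 4)))
        (cons i (cons z (cons h (cons (jn j (n + 1)) (fun _ => xs (n + 1)))))) ↔
        (i ≠ jn j (n + 1) ∧ Rel E h i z) ∨ (i = jn j (n + 1) ∧ z = xs (n + 1)) := by
      intro i z
      simp only [sat_or, sat_and, sat_neg, sat_eq, sat_rel, cons_zero, cons_succ]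
    obtain ⟨g, hg, hgr⟩ := C.mk_seq
      (.or (.and (.neg (.eq 0 3)) (.rel 2 0 1)) (.and (.eq 0 3) (.eq 1 4)))
      (cons h (cons (jn j (n + 1)) (fun _ => xs (n + 1)))) (by
        intro m
        rcases eq_or_ne m (n + 1) with hm | hm
        · refine ⟨xs (n + 1), fun z' => ?_⟩
          rw [key, hm]
          constructor
          · rintro (⟨h1, _⟩ | ⟨_, h2⟩)
            · exact absurd rfl h1
            · exact h2
          · intro h2
            exact Or.inr ⟨rfl, h2⟩
        · obtain ⟨z, hz⟩ := C.seq_val hh m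
          have hm' : jn j m ≠ jn j (n + 1) := fun e => hm (C.jn_inj.1 e)
          refine ⟨z, fun z' => ?_⟩
          rw [key]
          constructor
          · rintro (⟨_, h1⟩ | ⟨h2, _⟩)
            · exact (hz z').1 h1
            · exact absurd h2 hm'
          · intro h1
            exact Or.inl ⟨hm', (hz z').2 h1⟩)
    refine ⟨g, hg, fun m hm => ?_⟩
    rw [hgr, key]
    rcases eq_or_ne m (n + 1) with hm1 | hm1
    · exact Or.inr ⟨by rw [hm1], by rw [hm1]⟩
    · exact Or.inl ⟨fun e => hm1 (C.jn_inj.1 e), hr m (by omega)⟩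

theorem rec_seq (C : Cx E w j α) (f : Fm) (v : ℕ → M) (P : M → Prop) (x₀ : M) (h₀ : P x₀)
    (hs : ∀ x, P x → ∃ y, P y ∧ ∀ y', Sat E f (cons x (cons y' v)) ↔ y' = y) :
    ∃ g, Seq E w g ∧ Rel E g (jn j 0) x₀ ∧ (∀ (n : ℕ) z, Rel E g (jn j n) z → P z) ∧
      ∀ (n : ℕ) z z', Rel E g (jn j n) z → Rel E g (jn j (n + 1)) z' →
        Sat E f (cons z (cons z' v)) := by
  -- the sequence from outside
  choose nx hnxP hnx using hs
  let ys : ℕ → {x // P x} := fun n =>
    Nat.rec ⟨x₀, h₀⟩ (fun _ x => ⟨nx x.1 x.2, hnxP x.1 x.2⟩) n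
  set xs : ℕ → M := fun n => (ys n).1 with hxs
  have hxP : ∀ n, P (xs n) := fun n => (ys n).2
  have hx0 : xs 0 = x₀ := rfl
  have hxsuc : ∀ n y', Sat E f (cons (xs n) (cons y' v)) ↔ y' = xs (n + 1) :=
    fun n y' => hnx (ys n).1 (ys n).2 y'
  clear_value xs
  have hF : ∀ (n : ℕ) (z : M),
      Sat E (A3a_F f) (cons (jn j n) (cons z (cons w (cons x₀ (cons (jn j 0) v))))) ↔
        z = xs n := by
    intro n z
    rw [A3a_sat]
    constructor
    · rintro ⟨h, hh, h0, hst, hz⟩
      have hv : ∀ m, m ≤ n → Rel E h (jn j m) (xs m) := by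
        intro m
        induction m with
        | zero => intro _; rw [hx0]; exact h0
        | succ m ih =>
          intro hm
          have h1 := ih (by omega)
          obtain ⟨z1, hz1⟩ := seq_ex hh (C.jn_mem (m + 1))
          have h2 := hst (jn j m) (C.jn_mem_jn.2 (by omega)) (jn j (m + 1)) (C.jn_suc m) _ h1 _ hz1
          rw [hxsuc] at h2
          rw [← h2]
          exact hz1
      exact A3a_val C hh hz (hv n le_rfl)
    · intro hz
      obtain ⟨h, hh, hr⟩ := A3a_ex C xs n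
      refine ⟨h, hh, ?_, ?_, ?_⟩
      · have := hr 0 (Nat.zero_le n)
        rwa [hx0] at this
      · intro i1 hi1 i1' hi1' z1 hz1 z1' hz1'
        obtain ⟨m, hm, rfl⟩ := A3a_mem_jn C n hi1
        have hi2 : i1' = jn j (m + 1) := suc_uniq C.zf hi1' (C.jn_suc m)
        rw [hi2] at hz1'
        rw [A3a_val C hh hz1 (hr m (by omega)), A3a_val C hh hz1' (hr (m + 1) (by omega)), hxsuc]
      · rw [hz]
        exact hr n le_rfl
  obtain ⟨g, hg, hgr⟩ := C.mk_seq (A3a_F f) (cons w (cons x₀ (cons (jn j 0) v)))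
    (fun n => ⟨xs n, fun z' => hF n z'⟩)
  have hgr' : ∀ (n : ℕ) z, Rel E g (jn j n) z ↔ z = xs n := fun n z => (hgr n z).trans (hF n z)
  refine ⟨g, hg, (hgr' 0 x₀).2 hx0.symm, ?_, ?_⟩
  · intro n z hz
    rw [(hgr' n z).1 hz]
    exact hxP n
  · intro n z z' hz hz'
    rw [(hgr' n z).1 hz, (hgr' (n + 1) z').1 hz', hxsuc]

end Pool.Agent.LibBU85
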