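import Pool.Agent.LibBU85.A3a

/-!
BU85 A3b. The enumeration of the pairs in the model.

Plan. `rec_seq` with `P p := ∃ a b : ℕ, OPair E p (jn j a) (jn j b)`, `x₀` the pair of `jn j 0` and
`jn j 0` (`op_ex`), and the formula in `p`, `p'`: there are `a b a' b'` with `OPair p a b`,
`OPair p' a' b'` and (`Emp b` and `Emp a'` and `Suc b' a`) or (`Suc b b'` and `Suc a' a`)
(`Fm.oPair`, `Fm.emp`, `Fm.suc`). The next pair of `(jn j a, jn j b)` is the pair of the components of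
`cnx (a, b)`: `op_inj`, `op_uniq`, `emp_uniq`, `suc_uniq`, injectivity of the successor (if
`Suc E (jn j (b + 1)) y` then `y = jn j b`, e.g. by `mem_iff`). Then induction on `n`: `cp` is defined by
`cnx`.
-/

namespace Pool.Agent.LibBU85

open Pool.Agent.LibBc83 Pool.Agent.LibBd83

variable {M : Type} {E : M → M → Prop} {w : M} {j : Ordinal.{0} → M} {α : Ordinal.{0}}

private theorem A3b_mem (C : Cx E w j α) (n : ℕ) {x : M} (h : E x (jn j n)) : E x w := by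
  obtain ⟨γ, hγ, rfl⟩ := (C.st _ (C.nat_le n) x).1 h
  obtain ⟨m, rfl⟩ := Ordinal.lt_omega0.1 (hγ.trans (Ordinal.natCast_lt_omega0 n))
  exact C.jn_mem m

private def A3b_f : Fm :=
  .ex (.ex (.ex (.ex (.and (.oPair 4 3 2) (.and (.oPair 5 1 0)
    (.or (.and (.emp 2) (.and (.emp 1) (.suc 0 3))) (.and (.suc 2 0) (.suc 1 3))))))))

private theorem A3b_sat (x y' : M) (v : ℕ → M) : Sat E A3b_f (cons x (cons y' v)) ↔
    ∃ a b a' b', OPair E x a b ∧ OPair E y' a' b' ∧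
      ((Emp E b ∧ Emp E a' ∧ Suc E b' a) ∨ (Suc E b b' ∧ Suc E a' a)) := by
  simp only [A3b_f, sat_ex, sat_and, sat_or, sat_oPair, sat_emp, sat_suc, cons_zero, cons_succ]

private theorem A3b_key (C : Cx E w j α) {a b : ℕ} {x y : M} (v : ℕ → M)
    (hx : OPair E x (jn j a) (jn j b))
    (hy : OPair E y (jn j (cnx (a, b)).1) (jn j (cnx (a, b)).2)) (y' : M) :
    Sat E A3b_f (cons x (cons y' v)) ↔ y' = y := by
  have hZ := C.zf
  rw [A3b_sat]
  constructor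
  · rintro ⟨a1, b1, a', b', h1, h2, h3⟩
    obtain ⟨rfl, rfl⟩ := op_inj hZ hx h1
    rcases b with _ | c
    · rcases h3 with ⟨-, h4, h5⟩ | ⟨h4, -⟩
      · rw [emp_uniq hZ h4 C.jn_zero, suc_uniq hZ h5 (C.jn_suc a)] at h2
        exact op_uniq hZ h2 hy
      · exact absurd (suc_self h4) (C.jn_zero _)
    · rcases h3 with ⟨h4, -, -⟩ | ⟨h4, h5⟩
      · exact absurd (suc_self (C.jn_suc c)) (h4 _)
      · have h6 : E b' w := A3b_mem C (c + 1) (suc_self h4)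
        rw [suc_inj hZ C.om h6 (C.jn_mem c) h4 (C.jn_suc c), suc_uniq hZ h5 (C.jn_suc a)] at h2
        exact op_uniq hZ h2 hy
  · rintro rfl
    refine ⟨_, _, _, _, hx, hy, ?_⟩
    rcases b with _ | c
    · exact Or.inl ⟨C.jn_zero, C.jn_zero, C.jn_suc a⟩
    · exact Or.inr ⟨C.jn_suc c, C.jn_suc a⟩

theorem exists_G (C : Cx E w j α) : ∃ G, IsG E w j G := by
  have hZ := C.zf
  obtain ⟨x₀, hx₀⟩ := op_ex hZ (jn j 0) (jn j 0)
  obtain ⟨g, hg, h0, hP, hs⟩ := rec_seq C A3b_f (fun _ => w)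
    (fun p => ∃ a b : ℕ, OPair E p (jn j a) (jn j b)) x₀ ⟨0, 0, hx₀⟩ (by
      rintro x ⟨a, b, hx⟩
      obtain ⟨y, hy⟩ := op_ex hZ (jn j (cnx (a, b)).1) (jn j (cnx (a, b)).2)
      exact ⟨y, ⟨_, _, hy⟩, A3b_key C _ hx hy⟩)
  have key : ∀ n z, Rel E g (jn j n) z → OPair E z (jn j (cp n).1) (jn j (cp n).2) := by
    intro n
    induction n with
    | zero =>
      intro z hz
      obtain ⟨z₁, h₁⟩ := C.seq_val hg 0
      rw [(h₁ z).1 hz, ← (h₁ x₀).1 h0]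
      exact hx₀
    | succ n ih =>
      intro z hz
      obtain ⟨z₁, h₁⟩ := C.seq_val hg n
      have h2 : Rel E g (jn j n) z₁ := (h₁ z₁).2 rfl
      obtain ⟨y, hy⟩ := op_ex hZ (jn j (cnx (cp n)).1) (jn j (cnx (cp n)).2)
      have h3 := (A3b_key C (a := (cp n).1) (b := (cp n).2) (fun _ => w) (ih z₁ h2) hy z).1
        (hs n z₁ z h2 hz)
      rw [h3]
      exact hy
  refine ⟨g, hg, fun n p => ⟨key n p, fun hp => ?_⟩⟩
  obtain ⟨z₁, h₁⟩ := C.seq_val hg n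
  have h2 : Rel E g (jn j n) z₁ := (h₁ z₁).2 rfl
  rw [op_uniq hZ hp (key n z₁ h2)]
  exact h2

end Pool.Agent.LibBU85
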