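import Pool.Agent.LibBU85.Def

/-!
BU85 A4 (only natural numbers). The enumeration `cp` is bijective.

Plan. Let `T n = n (n + 1) / 2` (`∑ i ∈ range (n + 1), i`). By induction on `a`:
`cp (T s + a) = (a, s - a)` for `a ≤ s`, and `cp (T (s + 1)) = (0, s + 1)` is the next one. Surjective:
`(a, b) = cp (T (a + b) + a)`. Injective: each `n` is `T s + a` with `a ≤ s` (induction on `n`, or take
the inverse map `(a, b) ↦ T (a + b) + a` and check by induction on `n` that it maps `cp n` to `n`).
-/

namespace Pool.Agent.LibBU85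

open Pool.Agent.LibBc83 Pool.Agent.LibBd83

variable {M : Type} {E : M → M → Prop} {w : M} {j : Ordinal.{0} → M} {α : Ordinal.{0}}

private def A4_T (s : ℕ) : ℕ := ∑ i ∈ Finset.range (s + 1), i

private theorem A4_T_succ (s : ℕ) : A4_T (s + 1) = A4_T s + s + 1 := by
  unfold A4_T
  rw [Finset.sum_range_succ]
  ring

private def A4_g (p : ℕ × ℕ) : ℕ := A4_T (p.1 + p.2) + p.1

private theorem A4_g_cnx (p : ℕ × ℕ) : A4_g (cnx p) = A4_g p + 1 := by
  obtain ⟨a, b⟩ := p
  rcases b with _ | b
  · show A4_T (0 + (a + 1)) + 0 = A4_T (a + 0) + a + 1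
    rw [zero_add, A4_T_succ, add_zero, add_zero]
  · show A4_T ((a + 1) + b) + (a + 1) = A4_T (a + (b + 1)) + a + 1
    rw [show a + 1 + b = a + (b + 1) by ring]
    ring

private theorem A4_g_cp (n : ℕ) : A4_g (cp n) = n := by
  induction n with
  | zero =>
    show A4_T (0 + 0) + 0 = 0
    simp [A4_T]
  | succ n ih =>
    show A4_g (cnx (cp n)) = n + 1
    rw [A4_g_cnx, ih]

private theorem A4_g_inj : Function.Injective A4_g := by
  have key : ∀ s t : ℕ, s < t → ∀ a b : ℕ, a ≤ s → A4_T s + a < A4_T t + b := by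
    intro s t hst
    obtain ⟨k, rfl⟩ := Nat.exists_eq_add_of_lt hst
    induction k with
    | zero =>
      intro a b ha
      rw [add_zero, A4_T_succ]
      omega
    | succ k ih =>
      intro a b ha
      have h1 := ih (by omega) a 0 ha
      have h2 := A4_T_succ (s + k + 1)
      rw [show s + (k + 1) + 1 = s + k + 1 + 1 by ring]
      omega
  rintro ⟨a, b⟩ ⟨c, d⟩ h
  have h' : A4_T (a + b) + a = A4_T (c + d) + c := h
  rcases lt_trichotomy (a + b) (c + d) with h1 | h1 | h1
  · have := key _ _ h1 a c (by omega)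
    omega
  · rw [h1] at h'
    have h2 : a = c := by omega
    have h3 : b = d := by omega
    rw [h2, h3]
  · have := key _ _ h1 c a (by omega)
    omega

theorem cp_bij : Function.Bijective cp := by
  refine ⟨?_, ?_⟩
  · intro m n h
    rw [← A4_g_cp m, ← A4_g_cp n, h]
  · intro p
    exact ⟨A4_g p, A4_g_inj (A4_g_cp _)⟩

end Pool.Agent.LibBU85
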