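import Pool.Agent.LibBU85.A2

/-!
BU85 B1. A sequence with a new first term; enumerations of `β + 1`.

Plan. `cons_seq`: `mk_seq` with the formula (`Emp n` and `z = x`) or (there is `m` with `Suc n m` and
`Rel e m z`). `cb_iff`: `C.mem_w`. `enum_succ`: for `β = 0` the constant sequence with value `j 0`
(`cons_seq` of itself or `mk_seq` with `z = x`), for `β ≠ 0` `cons_seq (j β) he`, `he` from `Cb`, and
`E x (j (β + 1)) ↔ E x (j β) ∨ x = j β` (`C.suc`).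
-/

namespace Pool.Agent.LibBU85

open Pool.Agent.LibBc83 Pool.Agent.LibBd83

variable {M : Type} {E : M → M → Prop} {w : M} {j : Ordinal.{0} → M} {α : Ordinal.{0}}

private theorem B1_not_emp (C : Cx E w j α) (k : ℕ) : ¬ Emp E (jn j (k + 1)) := fun h =>
  h _ (C.jn_mem_jn.2 (Nat.lt_succ_self k))

private theorem B1_suc_iff (C : Cx E w j α) (k : ℕ) (m : M) :
    Suc E (jn j (k + 1)) m ↔ m = jn j k := by
  constructor
  · intro h
    have h1 : E m (jn j (k + 1)) := suc_self h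
    have h2 : E m w := by
      rw [C.mem_w]
      obtain ⟨γ, hγ, hm⟩ := (C.st _ (C.nat_le (k + 1)) m).1 h1
      obtain ⟨n, rfl⟩ := Ordinal.lt_omega0.1 (lt_trans hγ (Ordinal.natCast_lt_omega0 (k + 1)))
      exact ⟨n, hm⟩
    obtain ⟨i, rfl⟩ := C.mem_w.1 h2
    have h3 : i < k + 1 := C.jn_mem_jn.1 h1
    rcases (h (jn j k)).1 (C.jn_mem_jn.2 (Nat.lt_succ_self k)) with h4 | h4
    · have := C.jn_mem_jn.1 h4
      omega
    · exact h4.symm
  · rintro rfl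
    exact C.jn_suc k

theorem Cx.cons_seq (C : Cx E w j α) {e : M} (x : M) (he : Seq E w e) :
    ∃ e', Seq E w e' ∧ (∀ z, Rel E e' (jn j 0) z ↔ z = x) ∧
      ∀ (n : ℕ) z, Rel E e' (jn j (n + 1)) z ↔ Rel E e (jn j n) z := by
  let f : Fm := .or (.and (.emp 0) (.eq 1 2)) (.ex (.and (.suc 1 0) (.rel 4 0 2)))
  let v : ℕ → M := cons x (cons e (fun _ => e))
  have h0 : ∀ z, Sat E f (cons (jn j 0) (cons z v)) ↔ z = x := by
    intro z
    have h1 : Sat E f (cons (jn j 0) (cons z v)) ↔ (Emp E (jn j 0) ∧ z = x) ∨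
        ∃ m, Suc E (jn j 0) m ∧ Rel E e m z := by
      simp only [f, v, sat_or, sat_and, sat_emp, sat_eq, sat_ex, sat_suc, sat_rel]
      rfl
    rw [h1]
    constructor
    · rintro (⟨_, h⟩ | ⟨m, hm, _⟩)
      · exact h
      · exact absurd (suc_self hm) (C.jn_zero m)
    · intro h
      exact Or.inl ⟨C.jn_zero, h⟩
  have h1 : ∀ (k : ℕ) z, Sat E f (cons (jn j (k + 1)) (cons z v)) ↔ Rel E e (jn j k) z := by
    intro k z
    have h1 : Sat E f (cons (jn j (k + 1)) (cons z v)) ↔ (Emp E (jn j (k + 1)) ∧ z = x) ∨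
        ∃ m, Suc E (jn j (k + 1)) m ∧ Rel E e m z := by
      simp only [f, v, sat_or, sat_and, sat_emp, sat_eq, sat_ex, sat_suc, sat_rel]
      rfl
    rw [h1]
    constructor
    · rintro (⟨h, _⟩ | ⟨m, hm, h⟩)
      · exact absurd h (B1_not_emp C k)
      · rwa [(B1_suc_iff C k m).1 hm] at h
    · intro h
      exact Or.inr ⟨_, C.jn_suc k, h⟩
  obtain ⟨e', he', h2⟩ := C.mk_seq f v (by
    intro n
    rcases n with _ | k
    · exact ⟨x, h0⟩
    · obtain ⟨a, ha⟩ := C.seq_val he k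
      exact ⟨a, fun z' => (h1 k z').trans (ha z')⟩)
  exact ⟨e', he', fun z => (h2 0 z).trans (h0 z), fun n z => (h2 (n + 1) z).trans (h1 n z)⟩

theorem Cx.cb_iff (C : Cx E w j α) {a : M} :
    Cb E w a ↔ ∃ f, Seq E w f ∧ ∀ x, E x a ↔ ∃ n : ℕ, Rel E f (jn j n) x := by
  unfold Cb
  have h : ∀ f x, (∃ n, E n w ∧ Rel E f n x) ↔ ∃ n : ℕ, Rel E f (jn j n) x := by
    intro f x
    constructor
    · rintro ⟨n, hn, h⟩
      obtain ⟨k, rfl⟩ := C.mem_w.1 hn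
      exact ⟨k, h⟩
    · rintro ⟨k, h⟩
      exact ⟨_, C.jn_mem k, h⟩
  simp only [h]

theorem Cx.enum_succ (C : Cx E w j α) {β : Ordinal.{0}} (hβ : β + 1 ≤ α)
    (h : β ≠ 0 → Cb E w (j β)) :
    ∃ e, Seq E w e ∧ (∀ z, Rel E e (jn j 0) z ↔ z = j β) ∧
      ∀ x, E x (j (β + 1)) ↔ ∃ n : ℕ, Rel E e (jn j n) x := by
  have hsuc : ∀ x, E x (j (β + 1)) ↔ E x (j β) ∨ x = j β := C.suc hβ
  by_cases h0 : β = 0
  · obtain ⟨e, he, h1⟩ := C.mk_seq (.eq 1 2) (fun _ => j β) (fun n => ⟨j β, fun z' => by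
      rw [sat_eq]
      rfl⟩)
    have h2 : ∀ (n : ℕ) z, Rel E e (jn j n) z ↔ z = j β := by
      intro n z
      rw [h1, sat_eq]
      rfl
    refine ⟨e, he, h2 0, fun x => ?_⟩
    rw [hsuc]
    constructor
    · rintro (h3 | h3)
      · rw [h0] at h3
        exact absurd h3 (C.emp x)
      · exact ⟨0, (h2 0 x).2 h3⟩
    · rintro ⟨n, h3⟩
      exact Or.inr ((h2 n x).1 h3)
  · obtain ⟨f, hf, hfx⟩ := C.cb_iff.1 (h h0)
    obtain ⟨e, he, h1, h2⟩ := C.cons_seq (j β) hf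
    refine ⟨e, he, h1, fun x => ?_⟩
    rw [hsuc]
    constructor
    · rintro (h3 | h3)
      · obtain ⟨n, hn⟩ := (hfx x).1 h3
        exact ⟨n + 1, (h2 n x).2 hn⟩
      · exact ⟨0, (h1 x).2 h3⟩
    · rintro ⟨n, h3⟩
      rcases n with _ | n
      · exact Or.inr ((h1 x).1 h3)
      · exact Or.inl ((hfx x).2 ⟨n, (h2 n x).1 h3⟩)

end Pool.Agent.LibBU85
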