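import Pool.Agent.LibBU85.B1

/-!
BU85 B2. The first ordinal which is not countable in the model.

Plan. `ncb_card`: if `Cb E w (j α)` then `γ ↦ j γ` maps the ordinals below `α` injectively (`C.inj`)
into the range of the map `n ↦` the value of `f` at `jn j n`, which is countable; so the set of the
ordinals below `α` is countable. `exists_kap`: let `κ` be the least `γ ≤ α`, `γ ≠ 0`, with
`¬ Cb E w (j γ)` (`α ≠ 0` by `C.inf`). It is not `γ + 1` by `enum_succ`, so it is a limit (`Ordinal` zero,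
successor or limit), hence `ω ≤ κ` and closed under successor.
-/

namespace Pool.Agent.LibBU85

open Pool.Agent.LibBc83 Pool.Agent.LibBd83

variable {M : Type} {E : M → M → Prop} {w : M} {j : Ordinal.{0} → M} {α : Ordinal.{0}}

theorem ncb_card (C : Cx E w j α) (hα : ¬ (Set.Iio α).Countable) : ¬ Cb E w (j α) := by
  intro hcb
  obtain ⟨f, hf, hfx⟩ := C.cb_iff.1 hcb
  choose g hg using C.seq_val hf
  apply hα
  have hex : ∀ γ : Set.Iio α, ∃ n : ℕ, j γ.1 = g n := by
    intro γ
    have hγ : γ.1 < α := γ.2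
    have h1 : E (j γ.1) (j α) := (C.mem_iff le_rfl hγ.le).2 hγ
    obtain ⟨n, hn⟩ := (hfx _).1 h1
    exact ⟨n, (hg n _).1 hn⟩
  choose N hN using hex
  have hinj : Function.Injective N := by
    intro a b hab
    apply Subtype.ext
    have ha : a.1 < α := a.2
    have hb : b.1 < α := b.2
    apply C.inj ha.le hb.le
    rw [hN a, hN b, hab]
  have : Countable (Set.Iio α) := hinj.countable
  exact this.to_set

theorem exists_kap (C : Cx E w j α) (hα : ¬ Cb E w (j α)) : ∃ κ, IsKap E w j α κ := by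
  classical
  have hα0 : α ≠ 0 := by
    intro h
    have := C.inf
    rw [h] at this
    exact absurd (lt_of_lt_of_le Ordinal.omega0_pos this) (lt_irrefl _)
  let S : Set Ordinal.{0} := {γ | γ ≤ α ∧ γ ≠ 0 ∧ ¬ Cb E w (j γ)}
  have hS : S.Nonempty := ⟨α, le_rfl, hα0, hα⟩
  obtain ⟨κ, hκ, hmin⟩ := WellFounded.has_min (wellFounded_lt (α := Ordinal.{0})) S hS
  have hlow : ∀ γ < κ, γ ≠ 0 → Cb E w (j γ) := by
    intro γ hγ h0
    by_contra hc
    exact hmin γ ⟨hγ.le.trans hκ.1, h0, hc⟩ hγ
  have hsuc : ∀ γ < κ, γ + 1 < κ := by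
    intro γ hγ
    rcases lt_or_eq_of_le (Order.add_one_le_of_lt hγ) with h | h
    · exact h
    · exfalso
      have hle : γ + 1 ≤ α := by rw [h]; exact hκ.1
      obtain ⟨e, he, -, hex⟩ := C.enum_succ hle (hlow γ hγ)
      apply hκ.2.2
      rw [← h]
      exact C.cb_iff.2 ⟨e, he, hex⟩
  refine ⟨κ, hκ.1, ?_, hsuc, hlow, hκ.2.2⟩
  have hpos : (0 : Ordinal.{0}) < κ := pos_iff_ne_zero.2 hκ.2.1
  rw [Ordinal.omega0_le]
  intro n
  have hnat : ∀ n : ℕ, (n : Ordinal.{0}) < κ := by
    intro n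
    induction n with
    | zero => simpa using hpos
    | succ n ih =>
      have := hsuc _ ih
      exact_mod_cast this
  exact (hnat n).le

end Pool.Agent.LibBU85
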