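import Pool.Agent.LibBU85.A2

/-!
BU85 C0. The coded relation, seen from outside.

Plan. `cr_iff`: `m ∈ w` is `jn j m`; `Rel G m p` and `OPair p (jn j a) (jn j b)` mean `cp m = (a, b)` (`IsG`,
`op_inj`, `op_uniq`, `jn_inj`); `¬ Rel x m 0` means `rv x m ≠ 0` (`rel_rv`, `emp_uniq`, `jn_zero`).
`rkx_iff`: the members of `j δ` are the `j δ'`, `δ' < δ` (`C.st`).
-/

namespace Pool.Agent.LibBU85

open Pool.Agent.LibBc83 Pool.Agent.LibBd83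

variable {M : Type} {E : M → M → Prop} {w : M} {j : Ordinal.{0} → M} {α : Ordinal.{0}}

variable {G : M}

theorem Cx.cr_iff (C : Cx E w j α) (hG : IsG E w j G) {x : M} (hx : Real E w x) (a b : ℕ) :
    Cr E w G x (jn j a) (jn j b) ↔ ∃ m, cp m = (a, b) ∧ rv E j x m ≠ 0 := by
  constructor
  · rintro ⟨m, hm, p, hp, hGm, o, ho, hno⟩
    obtain ⟨m', rfl⟩ := C.mem_w.1 hm
    have h1 := (hG.2 m' p).1 hGm
    obtain ⟨h2, h3⟩ := op_inj C.zf hp h1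
    refine ⟨m', Prod.ext (C.jn_inj.1 h2).symm (C.jn_inj.1 h3).symm, fun h0 => hno ?_⟩
    rw [C.rel_rv hx, h0]
    exact emp_uniq C.zf ho C.jn_zero
  · rintro ⟨m, hm, hne⟩
    obtain ⟨p, hp⟩ := op_ex C.zf (jn j a) (jn j b)
    refine ⟨jn j m, C.jn_mem m, p, hp, ?_, jn j 0, C.jn_zero, ?_⟩
    · rw [hG.2 m p, hm]
      exact hp
    · rw [C.rel_rv hx, C.jn_inj]
      exact fun h => hne h.symm

theorem Cx.rkx_iff (C : Cx E w j α) (x : M) (k : ℕ) {δ : Ordinal.{0}} (hδ : δ ≤ α) :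
    Rkx E w G x (jn j k) (j δ) ↔
      Rk E w G x (jn j k) (j δ) ∧ ∀ δ' < δ, ¬ Rk E w G x (jn j k) (j δ') := by
  unfold Rkx
  refine and_congr Iff.rfl ⟨fun h δ' hδ' => h _ ((C.st δ hδ _).2 ⟨δ', hδ', rfl⟩), fun h b hb => ?_⟩
  obtain ⟨γ, hγ, rfl⟩ := (C.st δ hδ b).1 hb
  exact h γ hγ

end Pool.Agent.LibBU85
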