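import Pool.Agent.LibBU85.C0

/-!
BU85 C1. The rank satisfies the recursion.

Plan. `→`: let `r` be a witness for `(k, δ)`, and let `a` be below `k`. `r (k) = j β` with `β ≤ δ`
(members of `j δ` or `j δ`), and `r (a) ∈ r (k)`, so `r (a) = j δ'`, `δ' < β`. The same `r` is a witness
for `(a, δ')`: if `r (i)` is a member of `j δ'` or equal to it then it is a member of `j δ`.
`←`: by `mk_seq` there is `r` with: `r (i) = j β` if `β < δ` is the least ordinal with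
`Rk (i, j β)`, `r (k) = j δ` if there is no such `β` for `i = k`, and `r (i) = j (δ + 1)` for all other
`i` without such `β`. Formula in `i`, `z`: (`z ∈ j δ` and `Rkx (i, z)`) or (no `b ∈ j δ` with `Rk (i, b)`,
and (`i = k` and `z = j δ` or `i ≠ k` and `z = j (δ+1)`)) (`Fm'.rk`, `Fm'.rkx`; `C0.rkx_iff`; if
`Rk (i, j β)` for some `β < δ` there is a least one). `j (δ + 1)` is neither `j δ` nor a member of it
(`mem_iff`, `inj`, `hδ`). Check the two conditions with `→` (for `β`) and the hypothesis (for `k`).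
`mono`: by `rk_iff` for both.
-/

namespace Pool.Agent.LibBU85

open Pool.Agent.LibBc83 Pool.Agent.LibBd83

variable {M : Type} {E : M → M → Prop} {w : M} {j : Ordinal.{0} → M} {α : Ordinal.{0}}

variable {G : M}

private theorem C1_fwd (C : Cx E w j α) (x : M) (k : ℕ) {δ : Ordinal.{0}} (hδ : δ ≤ α)
    (h : Rk E w G x (jn j k) (j δ)) :
    ∀ a : ℕ, Cr E w G x (jn j a) (jn j k) → ∃ δ' < δ, Rk E w G x (jn j a) (j δ') := by
  obtain ⟨r, hr, h1, h2⟩ := h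
  intro a ha
  obtain ⟨b, hb⟩ := C.seq_val hr k
  obtain ⟨c, hc⟩ := C.seq_val hr a
  have hb1 := h1 b ((hb b).2 rfl)
  have hb2 : ∃ β ≤ δ, b = j β := by
    rcases hb1 with hb1 | hb1
    · obtain ⟨β, hβ, e⟩ := (C.st δ hδ b).1 hb1
      exact ⟨β, hβ.le, e⟩
    · exact ⟨δ, le_rfl, hb1⟩
  obtain ⟨β, hβ, rfl⟩ := hb2
  have hcb : E c (j β) := h2 (jn j k) (j β) (C.jn_mem k) ((hb _).2 rfl) hb1 (jn j a) c (C.jn_mem a) ha
    ((hc c).2 rfl)
  obtain ⟨δ', hδ', rfl⟩ := (C.st β (hβ.trans hδ) c).1 hcb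
  refine ⟨δ', lt_of_lt_of_le hδ' hβ, r, hr, fun b' hb' => Or.inr ((hc b').1 hb'), ?_⟩
  intro i b' hi hib hb' a' c' ha' hcr hrc
  refine h2 i b' hi hib ?_ a' c' ha' hcr hrc
  left
  have hδδ : δ' < δ := lt_of_lt_of_le hδ' hβ
  rcases hb' with hb' | hb'
  · obtain ⟨γ', hγ', rfl⟩ := (C.st δ' (hδδ.le.trans hδ) b').1 hb'
    exact (C.mem_iff hδ ((hγ'.trans hδδ).le.trans hδ)).2 (hγ'.trans hδδ)
  · rw [hb']
    exact (C.mem_iff hδ (hδδ.le.trans hδ)).2 hδδ

private theorem C1_bwd (C : Cx E w j α) (x : M) (k : ℕ) {δ : Ordinal.{0}} (hδ : δ + 1 ≤ α)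
    (h : ∀ a : ℕ, Cr E w G x (jn j a) (jn j k) → ∃ δ' < δ, Rk E w G x (jn j a) (j δ')) :
    Rk E w G x (jn j k) (j δ) := by
  have hδα : δ ≤ α := le_self_add.trans hδ
  have hlt1 : δ < δ + 1 := lt_add_one δ
  obtain ⟨r, hr, hrel⟩ := C.mk_seq
    (Fm.or (Fm.and (Fm.mem 1 6) (Fm'.rkx 2 3 4 0 1))
      (Fm.and (Fm.all (Fm.imp (Fm.mem 0 7) (Fm.neg (Fm'.rk 3 4 5 1 0))))
        (Fm.or (Fm.and (Fm.eq 0 5) (Fm.eq 1 6)) (Fm.and (Fm.neg (Fm.eq 0 5)) (Fm.eq 1 7)))))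
    (cons w (cons G (cons x (cons (jn j k) (cons (j δ) (fun _ => j (δ + 1))))))) (by
      intro n
      by_cases hex : ∃ β < δ, Rk E w G x (jn j n) (j β)
      · obtain ⟨β, ⟨hβ, hβr⟩, hmin⟩ := WellFounded.has_min (wellFounded_lt (α := Ordinal.{0}))
          {β | β < δ ∧ Rk E w G x (jn j n) (j β)} hex
        refine ⟨j β, fun z' => ?_⟩
        simp only [sat_or, sat_and, sat_mem, sat_rkx, sat_all, sat_imp, sat_neg, sat_rk, sat_eq, cons_zero,
          cons_succ]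
        constructor
        · rintro (⟨h1, h2⟩ | ⟨h1, _⟩)
          · obtain ⟨β', hβ', rfl⟩ := (C.st δ hδα z').1 h1
            have h3 := (C.rkx_iff x n (hβ'.le.trans hδα)).1 h2
            have h4 : ¬ β' < β := hmin β' ⟨hβ', h3.1⟩
            have h5 : ¬ β < β' := fun h6 => h3.2 β h6 hβr
            rw [le_antisymm (not_lt.1 h5) (not_lt.1 h4)]
          · exact absurd hβr (h1 (j β) ((C.mem_iff hδα (hβ.le.trans hδα)).2 hβ))
        · rintro rfl
          left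
          refine ⟨(C.mem_iff hδα (hβ.le.trans hδα)).2 hβ, (C.rkx_iff x n (hβ.le.trans hδα)).2 ⟨hβr, ?_⟩⟩
          intro δ' hδ' h3
          exact hmin δ' ⟨hδ'.trans hβ, h3⟩ hδ'
      · have hno : ∀ b, E b (j δ) → ¬ Rk E w G x (jn j n) b := by
          intro b hb hb'
          obtain ⟨β, hβ, rfl⟩ := (C.st δ hδα b).1 hb
          exact hex ⟨β, hβ, hb'⟩
        by_cases hnk : jn j n = jn j k
        · refine ⟨j δ, fun z' => ?_⟩
          simp only [sat_or, sat_and, sat_mem, sat_rkx, sat_all, sat_imp, sat_neg, sat_rk, sat_eq, cons_zero,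
            cons_succ]
          constructor
          · rintro (⟨h1, h2⟩ | ⟨_, ⟨_, h2⟩ | ⟨h2, _⟩⟩)
            · exact absurd h2.1 (hno z' h1)
            · exact h2
            · exact absurd hnk h2
          · intro hz
            exact Or.inr ⟨hno, Or.inl ⟨hnk, hz⟩⟩
        · refine ⟨j (δ + 1), fun z' => ?_⟩
          simp only [sat_or, sat_and, sat_mem, sat_rkx, sat_all, sat_imp, sat_neg, sat_rk, sat_eq, cons_zero,
            cons_succ]
          constructor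
          · rintro (⟨h1, h2⟩ | ⟨_, ⟨h2, _⟩ | ⟨_, h2⟩⟩)
            · exact absurd h2.1 (hno z' h1)
            · exact absurd h2 hnk
            · exact h2
          · intro hz
            exact Or.inr ⟨hno, Or.inr ⟨hnk, hz⟩⟩)
  simp only [sat_or, sat_and, sat_mem, sat_rkx, sat_all, sat_imp, sat_neg, sat_rk, sat_eq, cons_zero,
    cons_succ] at hrel
  have key : ∀ (m : ℕ) (c : M) (β : Ordinal.{0}), β ≤ δ → Rel E r (jn j m) c →
      (∃ δ' < β, Rk E w G x (jn j m) (j δ')) → E c (j β) := by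
    intro m c β hβ hc hex
    obtain ⟨δ', hδ', hrk⟩ := hex
    rcases (hrel m c).1 hc with ⟨h1, h2⟩ | ⟨h1, _⟩
    · obtain ⟨γ', hγ', rfl⟩ := (C.st δ hδα c).1 h1
      have h3 := (C.rkx_iff x m (hγ'.le.trans hδα)).1 h2
      have h4 : γ' ≤ δ' := by
        by_contra h5
        exact h3.2 δ' (not_le.1 h5) hrk
      exact (C.mem_iff (hβ.trans hδα) (hγ'.le.trans hδα)).2 (lt_of_le_of_lt h4 hδ')
    · have h3 : δ' < δ := lt_of_lt_of_le hδ' hβ
      exact absurd hrk (h1 (j δ') ((C.mem_iff hδα (h3.le.trans hδα)).2 h3))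
  refine ⟨r, hr, ?_, ?_⟩
  · intro b hb
    rcases (hrel k b).1 hb with ⟨h1, _⟩ | ⟨_, ⟨_, h2⟩ | ⟨h2, _⟩⟩
    · exact Or.inl h1
    · exact Or.inr h2
    · exact absurd rfl h2
  · intro i b hi hib hb a c ha hcr hc
    obtain ⟨n, rfl⟩ := C.mem_w.1 hi
    obtain ⟨m, rfl⟩ := C.mem_w.1 ha
    rcases (hrel n b).1 hib with ⟨h1, h2⟩ | ⟨_, ⟨h2, h3⟩ | ⟨_, h3⟩⟩
    · obtain ⟨β, hβ, rfl⟩ := (C.st δ hδα b).1 h1
      have h4 := C1_fwd C x n (hβ.le.trans hδα) h2.1 m hcr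
      exact key m c β hβ.le hc h4
    · rw [h3]
      rw [h2] at hcr
      exact key m c δ le_rfl hc (h m hcr)
    · exfalso
      rw [h3] at hb
      rcases hb with hb | hb
      · exact absurd ((C.mem_iff hδα hδ).1 hb) (not_lt.2 hlt1.le)
      · exact absurd (C.inj hδ hδα hb) hlt1.ne'

theorem Cx.rk_iff (C : Cx E w j α) (x : M) (k : ℕ) {δ : Ordinal.{0}} (hδ : δ + 1 ≤ α) :
    Rk E w G x (jn j k) (j δ) ↔
      ∀ a : ℕ, Cr E w G x (jn j a) (jn j k) → ∃ δ' < δ, Rk E w G x (jn j a) (j δ') :=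
  ⟨C1_fwd C x k (le_self_add.trans hδ), C1_bwd C x k hδ⟩

theorem Cx.rk_mono (C : Cx E w j α) (x : M) (k : ℕ) {δ δ' : Ordinal.{0}} (h : δ ≤ δ')
    (hδ : δ' + 1 ≤ α) (hr : Rk E w G x (jn j k) (j δ)) : Rk E w G x (jn j k) (j δ') := by
  rw [C.rk_iff x k hδ]
  intro a ha
  obtain ⟨δ'', h1, h2⟩ := C1_fwd C x k ((h.trans le_self_add).trans hδ) hr a ha
  exact ⟨δ'', lt_of_lt_of_le h1 h, h2⟩

end Pool.Agent.LibBU85
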