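import Pool.Agent.LibBU85.H2

/-!
BU85 H3. Unions and intersections of sequences of sets in one class.

Plan. `union`: a term `z` in `Σ⁰_β` is the complement of its complement `z'` (`compl_ex`, `compl_compl`,
`HC.real`), which is in `Σ⁰_(β+1)` (`compl_sig`); so `HC.iff` for `β + 2` with the sequence `g` itself.
`inter`: the complement of `A` is the union of the sequence `g'` of the complements of the terms
(`mk_sets` with the formula `∃ z, Rel g n z ∧ x ∉ z`, or `Compl`), which are complements of sets in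
`Σ⁰_β`; so it is in `Σ⁰_(β+1)`, and `A` is in `Σ⁰_(β+2)` by `compl_sig`.
-/

namespace Pool.Agent.LibBU85

open Pool.Agent.LibBc83 Pool.Agent.LibBd83

variable {M : Type} {E : M → M → Prop} {w : M} {j : Ordinal.{0} → M} {α : Ordinal.{0}}

variable {F : M}

private theorem H3_lt (β : Ordinal.{0}) : β + 1 < β + 2 := by
  rw [← one_add_one_eq_two, ← add_assoc]
  exact Order.lt_succ (β + 1)

private theorem H3_one {β : Ordinal.{0}} (h0 : β ≠ 0) : 1 < β + 1 := by
  have h1 : (1 : Ordinal.{0}) ≤ β := Ordinal.one_le_iff_ne_zero.2 h0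
  exact lt_of_le_of_lt h1 (Order.lt_succ β)

theorem HC.union (H : HC E w j α F) {β : Ordinal.{0}} (h0 : β ≠ 0) (hβ : β + 2 ≤ α) {g A : M}
    (hg : Seq E w g) (h : ∀ (n : ℕ) z, Rel E g (jn j n) z → Sg E j F β z)
    (hA : Union E w A g) : Sg E j F (β + 2) A := by
  have h12 : β + 1 < β + 2 := H3_lt β
  have h01 : β < β + 1 := Order.lt_succ β
  have hβ1 : β + 1 ≤ α := h12.le.trans hβ
  have hβ0 : β ≤ α := h01.le.trans hβ1
  refine (H.iff hβ A).2 (Or.inr ⟨(H3_one h0).trans h12, g, hg, ?_, hA⟩)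
  intro n z hz
  have hs := h n z hz
  obtain ⟨z', hz'⟩ := H.cx.compl_ex z
  exact ⟨β + 1, h12, (H3_one h0).ne_bot, z', H.compl_sig h01 hβ1 hs hz',
    compl_compl (H.real hβ0 hs) hz'⟩

theorem HC.inter (H : HC E w j α F) {β : Ordinal.{0}} (h0 : β ≠ 0) (hβ : β + 2 ≤ α) {g A : M}
    (hg : Seq E w g) (h : ∀ (n : ℕ) z, Rel E g (jn j n) z → Sg E j F β z)
    (hA : ∀ x, E x A ↔ Real E w x ∧ ∀ (n : ℕ) z, Rel E g (jn j n) z → E x z) :
    Sg E j F (β + 2) A := by
  have h12 : β + 1 < β + 2 := H3_lt β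
  have h01 : β < β + 1 := Order.lt_succ β
  have hβ1 : β + 1 ≤ α := h12.le.trans hβ
  obtain ⟨g', hg', hgr⟩ := H.cx.mk_sets
    (Fm.ex (Fm.and (Fm.rel 3 2 0) (Fm.neg (Fm.mem 1 0)))) (fun _ => g)
  have hgr' : ∀ (n : ℕ) (z' : M), Rel E g' (jn j n) z' ↔
      ∀ x, E x z' ↔ Real E w x ∧ ∃ z, Rel E g (jn j n) z ∧ ¬ E x z := by
    intro n z'
    rw [hgr n z']
    simp [cons]
  obtain ⟨A', hA'⟩ := H.cx.compl_ex A
  have hu : Union E w A' g' := by
    rw [H.cx.union_iff]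
    intro x
    rw [hA' x, hA x]
    constructor
    · rintro ⟨hx, hn⟩
      have : ∃ (n : ℕ) (z : M), Rel E g (jn j n) z ∧ ¬ E x z := by
        by_contra hc
        push_neg at hc
        exact hn ⟨hx, hc⟩
      obtain ⟨n, z, hz, hxz⟩ := this
      obtain ⟨z', hz'⟩ := H.cx.seq_val hg' n
      have hz'' : Rel E g' (jn j n) z' := (hz' z').2 rfl
      exact ⟨n, z', hz'', ((hgr' n z').1 hz'' x).2 ⟨hx, z, hz, hxz⟩⟩
    · rintro ⟨n, z', hz', hx⟩
      obtain ⟨hxr, z, hz, hxz⟩ := ((hgr' n z').1 hz' x).1 hx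
      exact ⟨hxr, fun hc => hxz (hc.2 n z hz)⟩
  have hs' : Sg E j F (β + 1) A' := by
    refine (H.iff hβ1 A').2 (Or.inr ⟨H3_one h0, g', hg', ?_, hu⟩)
    intro n z' hz'
    obtain ⟨z, hz⟩ := H.cx.seq_val hg n
    have hzr : Rel E g (jn j n) z := (hz z).2 rfl
    refine ⟨β, h01, h0, z, h n z hzr, ?_⟩
    intro x
    rw [(hgr' n z').1 hz' x]
    constructor
    · rintro ⟨hx, y, hy, hxy⟩
      have : y = z := (hz y).1 hy
      subst this
      exact ⟨hx, hxy⟩
    · rintro ⟨hx, hxz⟩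
      exact ⟨hx, z, hzr, hxz⟩
  exact H.compl_sig h12 hβ hs' (compl_compl (fun x hx => ((hA x).1 hx).1) hA')

end Pool.Agent.LibBU85
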