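import Pool.Agent.LibBU85.H2

/-!
BU85 H4. Clopen sets.

Plan. `clo_coord`: if `x` and `y` agree below `m + 1` then `rv x m = rv y m` (`agr_iff`); the complement of
`D` is given by the predicate `fun n => ¬ P n`. `inter_clo`, `union_clo` together by induction on `β`
(strong induction, for all `A`, `B`, `D`): `β = 1`: open sets. `β > 1`: `A` is the union of `g`; take the
sequence `g'` with `g' (n) = g (n) ∩ D` (resp. `g (n) ∪ D`), by `mk_sets` with the formula
`∃ z, Rel g n z ∧ (x ∈ z ∧ x ∈ D)` (resp. `∨`; all members of `D` are reals). If `g (n)` is the complement of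
`C` in `Σ⁰_γ` then `g' (n)` is the complement of `C ∪ D'` (resp. `C ∩ D'`), `D'` the complement of `D`,
which is clopen; these sets exist by `sep_real` and are in `Σ⁰_γ` by induction.
-/

namespace Pool.Agent.LibBU85

open Pool.Agent.LibBc83 Pool.Agent.LibBd83

variable {M : Type} {E : M → M → Prop} {w : M} {j : Ordinal.{0} → M} {α : Ordinal.{0}}

variable {F : M}

private theorem H4_open_congr {A B : M} (h : ∀ x, E x A ↔ E x B) (hA : Open E w A) :
    Open E w B := by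
  refine ⟨fun x hx => hA.1 x ((h x).2 hx), fun x hx => ?_⟩
  obtain ⟨n, hn, h1⟩ := hA.2 x ((h x).2 hx)
  exact ⟨n, hn, fun y hy hag => (h y).1 (h1 y hy hag)⟩

private theorem H4_open_coord (C : Cx E w j α) (m : ℕ) (P : ℕ → Prop) {D : M}
    (hD : ∀ x, E x D ↔ Real E w x ∧ P (rv E j x m)) : Open E w D := by
  refine ⟨fun x hx => ((hD x).1 hx).1, fun x hx => ?_⟩
  obtain ⟨h1, h2⟩ := (hD x).1 hx
  refine ⟨jn j (m + 1), C.jn_mem (m + 1), fun y hy hag => ?_⟩
  have h3 := (C.agr_iff h1 hy (m + 1)).1 hag m (Nat.lt_succ_self m)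
  exact (hD y).2 ⟨hy, h3 ▸ h2⟩

private theorem H4_inter_open (C : Cx E w j α) {A B D : M} (hA : Open E w A) (hD : Open E w D)
    (hB : ∀ x, E x B ↔ E x A ∧ E x D) : Open E w B := by
  refine ⟨fun x hx => hA.1 x ((hB x).1 hx).1, fun x hx => ?_⟩
  obtain ⟨h1, h2⟩ := (hB x).1 hx
  have hx' := hA.1 x h1
  obtain ⟨n, hn, h3⟩ := hA.2 x h1
  obtain ⟨n', hn', h4⟩ := hD.2 x h2
  obtain ⟨a, rfl⟩ := C.mem_w.1 hn
  obtain ⟨b, rfl⟩ := C.mem_w.1 hn'
  refine ⟨jn j (max a b), C.jn_mem _, fun y hy hag => ?_⟩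
  have h5 := (C.agr_iff hx' hy _).1 hag
  refine (hB y).2 ⟨h3 y hy ((C.agr_iff hx' hy _).2 fun i hi => h5 i (lt_of_lt_of_le hi (le_max_left _ _))),
    h4 y hy ((C.agr_iff hx' hy _).2 fun i hi => h5 i (lt_of_lt_of_le hi (le_max_right _ _)))⟩

private theorem H4_union_open {A B D : M} (hA : Open E w A) (hD : Open E w D)
    (hB : ∀ x, E x B ↔ E x A ∨ E x D) : Open E w B := by
  refine ⟨fun x hx => ((hB x).1 hx).elim (hA.1 x) (hD.1 x), fun x hx => ?_⟩
  rcases (hB x).1 hx with h1 | h1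
  · obtain ⟨n, hn, h3⟩ := hA.2 x h1
    exact ⟨n, hn, fun y hy hag => (hB y).2 (Or.inl (h3 y hy hag))⟩
  · obtain ⟨n, hn, h3⟩ := hD.2 x h1
    exact ⟨n, hn, fun y hy hag => (hB y).2 (Or.inr (h3 y hy hag))⟩

theorem Cx.clo_coord (C : Cx E w j α) (m : ℕ) (P : ℕ → Prop) {D : M}
    (hD : ∀ x, E x D ↔ Real E w x ∧ P (rv E j x m)) : Clo E w D := by
  refine ⟨H4_open_coord C m P hD, fun D' hD' => H4_open_coord C m (fun n => ¬ P n) fun x => ?_⟩
  rw [hD' x, hD x]
  constructor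
  · rintro ⟨h1, h2⟩
    exact ⟨h1, fun h3 => h2 ⟨h1, h3⟩⟩
  · rintro ⟨h1, h2⟩
    exact ⟨h1, fun h3 => h2 h3.2⟩

theorem Clo.compl {D D' : M} (h : Clo E w D) (h' : Compl E w D' D) : Clo E w D' := by
  refine ⟨h.2 D' h', fun D'' h'' => H4_open_congr (fun x => ?_) h.1⟩
  rw [h'' x, h' x]
  constructor
  · intro h1
    exact ⟨h.1.1 x h1, fun h2 => h2.2 h1⟩
  · rintro ⟨h1, h2⟩
    by_contra h3
    exact h2 ⟨h1, h3⟩

private theorem H4_both (H : HC E w j α F) : ∀ β : Ordinal.{0}, β ≤ α → ∀ A B D : M,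
    Sg E j F β A → Clo E w D →
    ((∀ x, E x B ↔ E x A ∧ E x D) → Sg E j F β B) ∧
    ((∀ x, E x B ↔ E x A ∨ E x D) → Sg E j F β B) := by
  have C := H.cx
  intro β
  induction β using WellFoundedLT.induction with
  | ind β ih =>
  intro hβ A B D hA hD
  rcases (H.iff hβ A).1 hA with ⟨h1, h2⟩ | ⟨h1, g, hg, hgz, hU⟩
  · exact ⟨fun hB => (H.iff hβ B).2 (Or.inl ⟨h1, H4_inter_open C h2 hD.1 hB⟩),
      fun hB => (H.iff hβ B).2 (Or.inl ⟨h1, H4_union_open h2 hD.1 hB⟩)⟩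
  · obtain ⟨D', hD'⟩ := C.compl_ex D
    have hcD' : Clo E w D' := hD.compl hD'
    have hU' := C.union_iff.1 hU
    refine ⟨fun hB => (H.iff hβ B).2 (Or.inr ⟨h1, ?_⟩), fun hB => (H.iff hβ B).2 (Or.inr ⟨h1, ?_⟩)⟩
    · obtain ⟨g', hg', hgz'⟩ := C.mk_sets (.ex (.and (.rel 3 2 0) (.and (.mem 1 0) (.mem 1 4))))
        (cons g (fun _ => D))
      simp only [sat_ex, sat_and, sat_rel, sat_mem, cons_zero, cons_succ] at hgz'
      refine ⟨g', hg', fun n z' hz' => ?_, C.union_iff.2 fun x => ?_⟩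
      · obtain ⟨z, hz⟩ := C.seq_val hg n
        have hz0 : Rel E g (jn j n) z := (hz z).2 rfl
        obtain ⟨γ, hγ, hγ0, c, hc, hzc⟩ := hgz n z hz0
        have hγα : γ ≤ α := hγ.le.trans hβ
        obtain ⟨c', hc'⟩ := C.sep_real (.or (.mem 0 1) (.mem 0 2)) (cons c (fun _ => D'))
        simp only [sat_or, sat_mem, cons_zero, cons_succ] at hc'
        have hreal := H.real hγα hc
        have hc2 : ∀ x, E x c' ↔ E x c ∨ E x D' := by
          intro x
          rw [hc' x]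
          refine ⟨fun h => h.2, fun h => ⟨?_, h⟩⟩
          rcases h with h | h
          · exact hreal x h
          · exact ((hD' x).1 h).1
        refine ⟨γ, hγ, hγ0, c', ((ih γ hγ hγα c c' D' hc hcD').2 hc2), fun x => ?_⟩
        rw [(hgz' n z').1 hz' x, hc2 x]
        constructor
        · rintro ⟨h3, z1, h4, h5, h6⟩
          refine ⟨h3, ?_⟩
          rw [(hz z1).1 h4] at h5
          rintro (h7 | h7)
          · exact ((hzc x).1 h5).2 h7
          · exact ((hD' x).1 h7).2 h6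
        · rintro ⟨h3, h4⟩
          refine ⟨h3, z, hz0, (hzc x).2 ⟨h3, fun h5 => h4 (Or.inl h5)⟩, ?_⟩
          by_contra h5
          exact h4 (Or.inr ((hD' x).2 ⟨h3, h5⟩))
      · rw [hB x, hU' x]
        constructor
        · rintro ⟨⟨n, z, h3, h4⟩, h5⟩
          obtain ⟨z', hz'⟩ := C.seq_val hg' n
          have hz0 : Rel E g' (jn j n) z' := (hz' z').2 rfl
          exact ⟨n, z', hz0, ((hgz' n z').1 hz0 x).2 ⟨hD.1.1 x h5, z, h3, h4, h5⟩⟩
        · rintro ⟨n, z', h3, h4⟩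
          obtain ⟨_, z, h5, h6, h7⟩ := ((hgz' n z').1 h3 x).1 h4
          exact ⟨⟨n, z, h5, h6⟩, h7⟩
    · obtain ⟨g', hg', hgz'⟩ := C.mk_sets (.ex (.and (.rel 3 2 0) (.or (.mem 1 0) (.mem 1 4))))
        (cons g (fun _ => D))
      simp only [sat_ex, sat_and, sat_or, sat_rel, sat_mem, cons_zero, cons_succ] at hgz'
      refine ⟨g', hg', fun n z' hz' => ?_, C.union_iff.2 fun x => ?_⟩
      · obtain ⟨z, hz⟩ := C.seq_val hg n
        have hz0 : Rel E g (jn j n) z := (hz z).2 rfl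
        obtain ⟨γ, hγ, hγ0, c, hc, hzc⟩ := hgz n z hz0
        have hγα : γ ≤ α := hγ.le.trans hβ
        obtain ⟨c', hc'⟩ := C.sep_real (.and (.mem 0 1) (.mem 0 2)) (cons c (fun _ => D'))
        simp only [sat_and, sat_mem, cons_zero, cons_succ] at hc'
        have hreal := H.real hγα hc
        have hc2 : ∀ x, E x c' ↔ E x c ∧ E x D' := by
          intro x
          rw [hc' x]
          exact ⟨fun h => h.2, fun h => ⟨hreal x h.1, h⟩⟩
        refine ⟨γ, hγ, hγ0, c', ((ih γ hγ hγα c c' D' hc hcD').1 hc2), fun x => ?_⟩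
        rw [(hgz' n z').1 hz' x, hc2 x]
        constructor
        · rintro ⟨h3, z1, h4, h5⟩
          refine ⟨h3, ?_⟩
          rintro ⟨h6, h7⟩
          rw [(hz z1).1 h4] at h5
          rcases h5 with h5 | h5
          · exact ((hzc x).1 h5).2 h6
          · exact ((hD' x).1 h7).2 h5
        · rintro ⟨h3, h4⟩
          refine ⟨h3, z, hz0, ?_⟩
          by_cases h5 : E x c
          · right
            by_contra h6
            exact h4 ⟨h5, (hD' x).2 ⟨h3, h6⟩⟩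
          · exact Or.inl ((hzc x).2 ⟨h3, h5⟩)
      · rw [hB x, hU' x]
        constructor
        · rintro (⟨n, z, h3, h4⟩ | h5)
          · obtain ⟨z', hz'⟩ := C.seq_val hg' n
            have hz0 : Rel E g' (jn j n) z' := (hz' z').2 rfl
            obtain ⟨γ, hγ, hγ0, c, hc, hzc⟩ := hgz n z h3
            exact ⟨n, z', hz0, ((hgz' n z').1 hz0 x).2 ⟨((hzc x).1 h4).1, z, h3, Or.inl h4⟩⟩
          · obtain ⟨z, hz⟩ := C.seq_val hg 0
            have hz1 : Rel E g (jn j 0) z := (hz z).2 rfl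
            obtain ⟨z', hz'⟩ := C.seq_val hg' 0
            have hz0 : Rel E g' (jn j 0) z' := (hz' z').2 rfl
            exact ⟨0, z', hz0, ((hgz' 0 z').1 hz0 x).2 ⟨hD.1.1 x h5, z, hz1, Or.inr h5⟩⟩
        · rintro ⟨n, z', h3, h4⟩
          obtain ⟨_, z, h5, h6⟩ := ((hgz' n z').1 h3 x).1 h4
          rcases h6 with h6 | h6
          · exact Or.inl ⟨n, z, h5, h6⟩
          · exact Or.inr h6

theorem HC.inter_clo (H : HC E w j α F) {β : Ordinal.{0}} (hβ : β ≤ α) {A B D : M}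
    (hA : Sg E j F β A) (hD : Clo E w D) (hB : ∀ x, E x B ↔ E x A ∧ E x D) :
    Sg E j F β B := by
  exact (H4_both H β hβ A B D hA hD).1 hB

theorem HC.union_clo (H : HC E w j α F) {β : Ordinal.{0}} (hβ : β ≤ α) {A B D : M}
    (hA : Sg E j F β A) (hD : Clo E w D) (hB : ∀ x, E x B ↔ E x A ∨ E x D) :
    Sg E j F β B := by
  exact (H4_both H β hβ A B D hA hD).2 hB

end Pool.Agent.LibBU85
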