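import Pool.Agent.LibBU85.C1
import Pool.Agent.LibBU85.B1
import Pool.Agent.LibBU85.H3
import Pool.Agent.LibBU85.H4
import Pool.Agent.LibBU85.A4

/-!
BU85 C2a. The sets of the reals in which `k` has rank at most `γ`: one step.

Plan. By `rk_iff`, `A` is the intersection over `a : ℕ` of the sets
`T_a = {x : if Cr x a k then Rk x a b for some b ∈ j γ}` (a sequence by `mk_sets`, formulas `Fm'.cr`,
`Fm'.rk`). `{x : not Cr x a k}` is `{x : rv x m = 0}` for the only `m` with `cp m = (a, k)` (`cr_iff`,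
`cp_bij`), clopen (`clo_coord`). If `γ = 0` then `T_a` is this clopen set, in `Σ⁰_1`, so in `Σ⁰_(β+2)`
(`HC.iff`, `HC.mono`). If `γ ≠ 0` let `e` enumerate `j γ`; `{x : Rk x a b for some b ∈ j γ}` is the union of
the sequence of the sets `{x : Rk x a (e n)}` (`mk_sets`), which are in `Σ⁰_β` by hypothesis
(`e n = j δ`, `δ < γ`), so in `Σ⁰_(β+2)` (`HC.union`), and `T_a` is in `Σ⁰_(β+2)` (`HC.union_clo`). Then
`HC.inter` (`β + 2 + 2 = β + 4`).
-/

namespace Pool.Agent.LibBU85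

open Pool.Agent.LibBc83 Pool.Agent.LibBd83

variable {M : Type} {E : M → M → Prop} {w : M} {j : Ordinal.{0} → M} {α : Ordinal.{0}}

variable {F G : M}

theorem cs_step (H : HC E w j α F) (hG : IsG E w j G) {γ β : Ordinal.{0}} (hγ : γ + 1 ≤ α)
    (hc : γ ≠ 0 → Cb E w (j γ)) (hβ0 : β ≠ 0) (hβ : β + 4 ≤ α)
    (h : ∀ δ < γ, ∀ (k : ℕ) (A : M), IsCs E w G (jn j k) (j δ) A → Sg E j F β A)
    (k : ℕ) {A : M} (hA : IsCs E w G (jn j k) (j γ) A) : Sg E j F (β + 4) A := by
  classical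
  have C := H.cx
  have hγα : γ ≤ α := le_self_add.trans hγ
  have hβ2 : β + 2 ≤ α := by
    refine le_trans ?_ hβ
    have : (2 : Ordinal.{0}) ≤ 4 := by exact_mod_cast (by norm_num : (2 : ℕ) ≤ 4)
    exact add_le_add_right this β
  have h22 : β + 2 + 2 = β + 4 := by
    rw [add_assoc]
    congr 1
    exact_mod_cast (by norm_num : (2 : ℕ) + 2 = 4)
  obtain ⟨T, hT, hTrel⟩ := C.mk_sets
    (Fm.imp (Fm'.cr 2 3 0 1 4) (Fm.ex (Fm.and (Fm.mem 0 6) (Fm'.rk 3 4 1 2 0))))
    (cons w (cons G (cons (jn j k) (fun _ => j γ))))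
  simp only [sat_imp, sat_cr, sat_ex, sat_and, sat_mem, sat_rk, cons_zero, cons_succ] at hTrel
  rw [← h22]
  refine H.inter (β := β + 2) (by
    intro h0
    have : β ≤ 0 := h0 ▸ (le_self_add : β ≤ β + 2)
    exact hβ0 (le_antisymm this zero_le)) (by rw [h22]; exact hβ) hT ?_ ?_
  · intro a z hz
    have hz' := (hTrel a z).1 hz
    obtain ⟨m, hm⟩ := cp_bij.2 (a, k)
    have hcr : ∀ x, Real E w x → (Cr E w G x (jn j a) (jn j k) ↔ rv E j x m ≠ 0) := by
      intro x hx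
      rw [C.cr_iff hG hx]
      constructor
      · rintro ⟨m', h1, h2⟩
        have : m' = m := cp_bij.1 (h1.trans hm.symm)
        rw [← this]
        exact h2
      · intro h1
        exact ⟨m, hm, h1⟩
    obtain ⟨D, hD⟩ := C.sep_real (Fm.neg (Fm'.cr 1 2 0 3 4))
      (cons w (cons G (cons (jn j a) (fun _ => jn j k))))
    simp only [sat_neg, sat_cr, cons_zero, cons_succ] at hD
    have hClo : Clo E w D := by
      refine C.clo_coord m (fun n => n = 0) (fun x => ?_)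
      rw [hD x]
      constructor
      · rintro ⟨h1, h2⟩
        rw [hcr x h1] at h2
        exact ⟨h1, not_not.1 h2⟩
      · rintro ⟨h1, h2⟩
        refine ⟨h1, ?_⟩
        rw [hcr x h1]
        exact not_not.2 h2
    by_cases hγ0 : γ = 0
    · have hzD : z = D := by
        refine C.zf.ext z D (fun x => ?_)
        rw [hz' x, hD x]
        constructor
        · rintro ⟨h1, h2⟩
          refine ⟨h1, fun h3 => ?_⟩
          obtain ⟨b, hb, _⟩ := h2 h3
          rw [hγ0] at hb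
          exact C.emp b hb
        · rintro ⟨h1, h2⟩
          exact ⟨h1, fun h3 => absurd h3 h2⟩
      rw [hzD]
      have h1α : (1 : Ordinal.{0}) ≤ β + 2 :=
        le_trans (Order.one_le_iff_ne_zero.2 hβ0) le_self_add
      refine H.mono h1α hβ2 ?_
      rw [H.iff (h1α.trans hβ2)]
      exact Or.inl ⟨rfl, hClo.1⟩
    · obtain ⟨e, he, hej⟩ := C.cb_iff.1 (hc hγ0)
      obtain ⟨B, hB⟩ := C.sep_real (Fm.ex (Fm.and (Fm.mem 0 5) (Fm'.rk 2 3 1 4 0)))
        (cons w (cons G (cons (jn j a) (fun _ => j γ))))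
      simp only [sat_ex, sat_and, sat_mem, sat_rk, cons_zero, cons_succ] at hB
      obtain ⟨g, hg, hgrel⟩ := C.mk_sets (Fm.ex (Fm.and (Fm.rel 6 2 0) (Fm'.rk 3 4 1 5 0)))
        (cons w (cons G (cons (jn j a) (fun _ => e))))
      simp only [sat_ex, sat_and, sat_rel, sat_rk, cons_zero, cons_succ] at hgrel
      have hBS : Sg E j F (β + 2) B := by
        refine H.union hβ0 hβ2 hg ?_ ?_
        · intro n z' hz'
          have h1 := (hgrel n z').1 hz'
          obtain ⟨b0, hb0⟩ := C.seq_val he n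
          have h2 : E b0 (j γ) := (hej b0).2 ⟨n, (hb0 b0).2 rfl⟩
          obtain ⟨δ, hδ, hbδ⟩ := (C.st γ hγα b0).1 h2
          refine h δ hδ a z' (fun x => ?_)
          rw [h1 x]
          constructor
          · rintro ⟨h3, b, h4, h5⟩
            rw [(hb0 b).1 h4, hbδ] at h5
            exact ⟨h3, h5⟩
          · rintro ⟨h3, h5⟩
            exact ⟨h3, j δ, (hb0 _).2 hbδ.symm, h5⟩
        · rw [C.union_iff]
          intro x
          rw [hB x]
          constructor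
          · rintro ⟨h1, b, h2, h3⟩
            obtain ⟨n, hn⟩ := (hej b).1 h2
            obtain ⟨z', hz'⟩ := C.seq_val hg n
            have h4 : Rel E g (jn j n) z' := (hz' z').2 rfl
            exact ⟨n, z', h4, ((hgrel n z').1 h4 x).2 ⟨h1, b, hn, h3⟩⟩
          · rintro ⟨n, z', h1, h2⟩
            obtain ⟨h3, b, h4, h5⟩ := ((hgrel n z').1 h1 x).1 h2
            exact ⟨h3, b, (hej b).2 ⟨n, h4⟩, h5⟩
      refine H.union_clo hβ2 hBS hClo (fun x => ?_)
      rw [hz' x, hB x, hD x]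
      constructor
      · rintro ⟨h1, h2⟩
        by_cases h3 : Cr E w G x (jn j a) (jn j k)
        · exact Or.inl ⟨h1, h2 h3⟩
        · exact Or.inr ⟨h1, h3⟩
      · rintro (⟨h1, h2⟩ | ⟨h1, h2⟩)
        · exact ⟨h1, fun _ => h2⟩
        · exact ⟨h1, fun h3 => absurd h3 h2⟩
  · intro x
    rw [hA x, C.rk_iff x k hγ]
    constructor
    · rintro ⟨h1, h2⟩
      refine ⟨h1, fun a z hz => ?_⟩
      refine ((hTrel a z).1 hz x).2 ⟨h1, fun h3 => ?_⟩
      obtain ⟨δ', hδ', h4⟩ := h2 a h3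
      exact ⟨j δ', (C.mem_iff hγα (hδ'.le.trans hγα)).2 hδ', h4⟩
    · rintro ⟨h1, h2⟩
      refine ⟨h1, fun a h3 => ?_⟩
      obtain ⟨z, hz⟩ := C.seq_val hT a
      have h4 : Rel E T (jn j a) z := (hz z).2 rfl
      obtain ⟨b, h5, h6⟩ := (((hTrel a z).1 h4 x).1 (h2 a z h4)).2 h3
      obtain ⟨δ', hδ', rfl⟩ := (C.st γ hγα b).1 h5
      exact ⟨δ', hδ', h6⟩

end Pool.Agent.LibBU85
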