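import Pool.Agent.LibBU85.C2a

/-!
BU85 C2b. The sets of the reals in which `k` has rank at most `γ` are in classes below `κ`.

Plan. Induction on `γ` (`Ordinal.limitRecOn` or zero / successor / limit). Zero: `cs_step` with `β = 1`
(hypothesis empty). Successor `γ + 1`: if all sets for `δ ≤ γ` are in `Σ⁰_(γ+n)`, then the sets for `γ + 1`
are in `Σ⁰_(γ+n+4)`, and `γ + n + 4 = (γ + 1) + (n + 3)` (`n` natural, associativity, `1 + (n + 3)`
commute as natural numbers); the others by `HC.mono`. Limit `γ`: each set for `δ < γ` is in `Σ⁰_(δ+n)`,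
`δ + n < γ`, so in `Σ⁰_γ`; `cs_step` with `β = γ` gives `Σ⁰_(γ+4)`. All these ordinals are below `κ`
(closed under successor), so `≤ α`.
-/

namespace Pool.Agent.LibBU85

open Pool.Agent.LibBc83 Pool.Agent.LibBd83

variable {M : Type} {E : M → M → Prop} {w : M} {j : Ordinal.{0} → M} {α : Ordinal.{0}}

variable {F G : M}

private theorem C2b_add {κ : Ordinal.{0}} (hs : ∀ γ < κ, γ + 1 < κ) (γ : Ordinal.{0})
    (hγ : γ < κ) (n : ℕ) : γ + n < κ := by
  induction n with
  | zero => simpa using hγ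
  | succ n ih =>
    rw [Nat.cast_succ, ← add_assoc]
    exact hs _ ih

private theorem C2b_lim {γ : Ordinal.{0}} (hl : Order.IsSuccLimit γ) (δ : Ordinal.{0})
    (hδ : δ < γ) (n : ℕ) : δ + n < γ :=
  C2b_add (fun _ h => hl.add_one_lt h) δ hδ n

private theorem C2b_four (β : Ordinal.{0}) (n : ℕ) : β + n + 4 = β + 1 + ((n + 3 : ℕ) : Ordinal.{0}) := by
  have h1 : (4 : Ordinal.{0}) = ((4 : ℕ) : Ordinal.{0}) := rfl
  have h2 : (1 : Ordinal.{0}) = ((1 : ℕ) : Ordinal.{0}) := Nat.cast_one.symm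
  rw [h1, h2, add_assoc, add_assoc, ← Nat.cast_add, ← Nat.cast_add]
  congr 2
  omega

theorem cs_sig (H : HC E w j α F) (hG : IsG E w j G) {κ : Ordinal.{0}} (hκ : IsKap E w j α κ) :
    ∀ γ < κ, ∃ n : ℕ, n ≠ 0 ∧ ∀ δ ≤ γ, ∀ (k : ℕ) (A : M),
      IsCs E w G (jn j k) (j δ) A → Sg E j F (γ + n) A := by
  intro γ
  have hadd : ∀ γ < κ, ∀ n : ℕ, γ + n ≤ α := fun γ hγ n =>
    ((C2b_add hκ.suc γ hγ n).le).trans hκ.le
  induction γ using Ordinal.limitRecOn with
  | zero =>
    intro h0
    refine ⟨5, by norm_num, ?_⟩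
    intro δ hδ k A hA
    have hδ0 : δ = 0 := le_antisymm hδ zero_le
    subst hδ0
    have h5 : (0 : Ordinal.{0}) + ((5 : ℕ) : Ordinal.{0}) = 1 + 4 := by
      rw [zero_add]
      have := C2b_four 0 1
      rw [zero_add, zero_add] at this
      rw [Nat.cast_one] at this
      rw [this]
      have h2 : (1 : Ordinal.{0}) = ((1 : ℕ) : Ordinal.{0}) := Nat.cast_one.symm
      rw [h2, ← Nat.cast_add]
    rw [h5]
    refine cs_step H hG (γ := 0) (β := 1) ?_ (fun h => absurd rfl h) one_ne_zero ?_ ?_ k hA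
    · have := hadd 0 h0 1
      simpa using this
    · rw [← h5]
      exact hadd 0 h0 5
    · intro δ hδ
      exact absurd hδ (not_lt.2 zero_le)
  | add_one γ ih =>
    intro hγ1
    have hγ : γ < κ := lt_of_le_of_lt (le_of_lt (lt_add_one γ)) hγ1
    obtain ⟨n, hn, hI⟩ := ih hγ
    have e := C2b_four γ n
    refine ⟨n + 3, by omega, ?_⟩
    intro δ hδ k A hA
    rw [← e]
    have hle4 : γ + n + 4 ≤ α := by
      rw [e]
      exact hadd _ hγ1 _
    rcases lt_or_eq_of_le hδ with h1 | h1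
    · have h2 : δ ≤ γ := Order.lt_add_one_iff.1 h1
      exact H.mono (by exact le_self_add) hle4 (hI δ h2 k A hA)
    · subst h1
      refine cs_step H hG (γ := γ + 1) (β := γ + n) ?_ (fun h => hκ.cb _ hγ1 h) ?_ hle4 ?_ k hA
      · have := hadd _ hγ1 1
        rw [Nat.cast_one] at this
        exact this
      · intro h0
        have h2 : (n : Ordinal.{0}) ≤ 0 := by
          rw [← h0]
          exact le_add_self
        have h3 : (n : Ordinal.{0}) = 0 := le_antisymm h2 zero_le
        exact hn (by exact_mod_cast h3)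
      · intro δ hδ k A hA
        exact hI δ (Order.lt_add_one_iff.1 hδ) k A hA
  | limit γ hl ih =>
    intro hγ
    refine ⟨4, by norm_num, ?_⟩
    have hlt : ∀ δ < γ, ∀ (k : ℕ) (A : M), IsCs E w G (jn j k) (j δ) A → Sg E j F γ A := by
      intro δ hδ k A hA
      obtain ⟨n, _, hI⟩ := ih δ hδ (hδ.trans hγ)
      exact H.mono (C2b_lim hl δ hδ n).le (hγ.le.trans hκ.le) (hI δ le_rfl k A hA)
    intro δ hδ k A hA
    have hle4 : γ + ((4 : ℕ) : Ordinal.{0}) ≤ α := hadd γ hγ 4
    rcases lt_or_eq_of_le hδ with h1 | h1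
    · exact H.mono (by exact le_self_add) hle4 (hlt δ h1 k A hA)
    · subst h1
      have h0 : δ ≠ 0 := by
        intro h0
        have := hl.bot_lt
        rw [h0] at this
        exact lt_irrefl _ this
      refine cs_step H hG (γ := δ) (β := δ) ?_ (fun h => hκ.cb _ hγ h) h0 hle4 hlt k hA
      have := hadd _ hγ 1
      rw [Nat.cast_one] at this
      exact this

end Pool.Agent.LibBU85
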