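import Pool.Agent.LibBU85.C2b

/-!
BU85 C3. The sets of the reals in which `0` has rank exactly `γ` are in classes below `κ`.

Plan. `A` is the complement of `B = {x : not Rk x 0 (j γ)} ∪ ⋃_{δ<γ} {x : Rk x 0 (j δ)}` (`rkx_iff`; `B`
exists by `sep_real`). With `e` of `enum_succ` (`e 0 = j γ`, range `j (γ + 1)`), `B` is the union of the
sequence of the sets `{x : (e n = j γ and not Rk x 0 (j γ)) or (e n ∈ j γ and Rk x 0 (e n))}` (`mk_sets`).
By `cs_sig` (for `γ`) the sets of the second kind are in `Σ⁰_(γ+m)`, those of the first kind in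
`Σ⁰_(γ+m+1)` (`compl_sig`), so `B` is in `Σ⁰_(γ+m+3)` (`HC.union`) and `A` in `Σ⁰_(γ+m+4)` (`compl_sig`),
and `γ + m + 4 < κ`.
-/

namespace Pool.Agent.LibBU85

open Pool.Agent.LibBc83 Pool.Agent.LibBd83

variable {M : Type} {E : M → M → Prop} {w : M} {j : Ordinal.{0} → M} {α : Ordinal.{0}}

variable {F G : M}

theorem v_sig (H : HC E w j α F) (hG : IsG E w j G) {κ : Ordinal.{0}} (hκ : IsKap E w j α κ)
    {γ : Ordinal.{0}} (hγ : γ < κ) :
    ∃ β < κ, ∀ A : M, IsV E w G (jn j 0) (j γ) A → Sg E j F β A := by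
  classical
  have C := H.cx
  have hγ1κ : γ + 1 < κ := hκ.suc γ hγ
  have hγ1 : γ + 1 ≤ α := hγ1κ.le.trans hκ.le
  have hγα : γ ≤ α := hγ.le.trans hκ.le
  obtain ⟨m, hm0, hcs⟩ := cs_sig H hG hκ γ hγ
  have hadd : ∀ n : ℕ, γ + (n : Ordinal.{0}) < κ := by
    intro n
    induction n with
    | zero => simpa using hγ
    | succ n ih =>
      rw [Nat.cast_succ, ← add_assoc]
      exact hκ.suc _ ih
  set μ : Ordinal.{0} := γ + (m : Ordinal.{0}) with hμ
  have hμκ : μ < κ := hadd m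
  have h1κ : μ + 1 < κ := hκ.suc _ hμκ
  have h2κ : μ + 1 + 1 < κ := hκ.suc _ h1κ
  have h3κ : μ + 1 + 1 + 1 < κ := hκ.suc _ h2κ
  have h3e : μ + 1 + 2 = μ + 1 + 1 + 1 := by
    rw [add_assoc (μ + 1) 1 1, one_add_one_eq_two]
  have h3κ' : μ + 1 + 2 < κ := by rw [h3e]; exact h3κ
  have h4κ : μ + 1 + 2 + 1 < κ := hκ.suc _ h3κ'
  refine ⟨μ + 1 + 2 + 1, h4κ, fun A hA => ?_⟩
  obtain ⟨e, he, he0, her⟩ := C.enum_succ hγ1 (hκ.cb γ hγ)
  obtain ⟨g, hg, hgz⟩ := C.mk_sets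
    (.or (.and (.rel 6 1 5) (.neg (Fm'.rk 2 3 0 4 5)))
      (.ex (.and (.rel 7 2 0) (.and (.mem 0 6) (Fm'.rk 3 4 1 5 0)))))
    (cons w (cons G (cons (jn j 0) (cons (j γ) (fun _ => e)))))
  have hgz' : ∀ (n : ℕ) z, Rel E g (jn j n) z ↔ ∀ x, E x z ↔ Real E w x ∧
      ((Rel E e (jn j n) (j γ) ∧ ¬ Rk E w G x (jn j 0) (j γ)) ∨
        ∃ b, Rel E e (jn j n) b ∧ E b (j γ) ∧ Rk E w G x (jn j 0) b) := by
    intro n z
    rw [hgz n z]
    simp [cons]
  obtain ⟨B, hB⟩ := C.compl_ex A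
  have hAreal : ∀ x, E x A → Real E w x := fun x hx => ((hA x).1 hx).1
  have hU : Union E w B g := by
    rw [C.union_iff]
    intro x
    constructor
    · intro hx
      obtain ⟨hxr, hxA⟩ := (hB x).1 hx
      have hnr : ¬ Rkx E w G x (jn j 0) (j γ) := fun h => hxA ((hA x).2 ⟨hxr, h⟩)
      by_cases hr : Rk E w G x (jn j 0) (j γ)
      · have h1 : ∃ b, E b (j γ) ∧ Rk E w G x (jn j 0) b := by
          by_contra hcon
          push Not at hcon
          exact hnr ⟨hr, hcon⟩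
        obtain ⟨b, hb, hrb⟩ := h1
        have hb1 : E b (j (γ + 1)) := (C.suc hγ1 b).2 (Or.inl hb)
        obtain ⟨n, hn⟩ := (her b).1 hb1
        obtain ⟨z, hz⟩ := seq_ex hg (C.jn_mem n)
        exact ⟨n, z, hz, ((hgz' n z).1 hz x).2 ⟨hxr, Or.inr ⟨b, hn, hb, hrb⟩⟩⟩
      · obtain ⟨z, hz⟩ := seq_ex hg (C.jn_mem 0)
        exact ⟨0, z, hz, ((hgz' 0 z).1 hz x).2 ⟨hxr, Or.inl ⟨(he0 _).2 rfl, hr⟩⟩⟩
    · rintro ⟨n, z, hz, hxz⟩
      obtain ⟨hxr, h1⟩ := ((hgz' n z).1 hz x).1 hxz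
      refine (hB x).2 ⟨hxr, fun hxA => ?_⟩
      have h2 := ((hA x).1 hxA).2
      rcases h1 with ⟨-, h3⟩ | ⟨b, -, hb, hrb⟩
      · exact h3 h2.1
      · exact h2.2 b hb hrb
  have hterm : ∀ (n : ℕ) z, Rel E g (jn j n) z → Sg E j F (μ + 1) z := by
    intro n z hz
    have hz' := (hgz' n z).1 hz
    obtain ⟨y, hy⟩ := seq_ex he (C.jn_mem n)
    have hy1 : E y (j (γ + 1)) := (her y).2 ⟨n, hy⟩
    have hμ1 : μ + 1 ≤ α := h1κ.le.trans hκ.le
    have hlt : μ < μ + 1 := lt_add_one μ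
    rcases (C.suc hγ1 y).1 hy1 with hyγ | rfl
    · obtain ⟨δ, hδ, rfl⟩ := (C.st γ hγα y).1 hyγ
      have hcsz : IsCs E w G (jn j 0) (j δ) z := by
        intro x
        rw [hz' x]
        refine and_congr_right fun hxr => ⟨?_, fun h => Or.inr ⟨j δ, hy, hyγ, h⟩⟩
        rintro (⟨h1, -⟩ | ⟨b, h1, -, h3⟩)
        · have h4 := seq_uniq he (C.jn_mem n) h1 hy
          rw [h4] at hyγ
          exact absurd hyγ (not_mem_self C.zf _)
        · have h4 := seq_uniq he (C.jn_mem n) h1 hy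
          rwa [h4] at h3
      exact H.mono hlt.le hμ1 (hcs δ hδ.le 0 z hcsz)
    · obtain ⟨D, hD⟩ := C.sep_real (Fm'.rk 1 2 0 3 4)
        (cons w (cons G (cons (jn j 0) (fun _ => j γ))))
      have hD' : IsCs E w G (jn j 0) (j γ) D := by
        intro x
        rw [hD x]
        simp [cons]
      refine H.compl_sig hlt hμ1 (hcs γ le_rfl 0 D hD') ?_
      intro x
      rw [hz' x]
      refine and_congr_right fun hxr => ?_
      rw [hD' x]
      constructor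
      · rintro (⟨-, h2⟩ | ⟨b, h1, h2, -⟩)
        · exact fun h => h2 h.2
        · have h4 := seq_uniq he (C.jn_mem n) h1 hy
          rw [h4] at h2
          exact absurd h2 (not_mem_self C.zf _)
      · intro h
        exact Or.inl ⟨hy, fun h2 => h ⟨hxr, h2⟩⟩
  have hBs : Sg E j F (μ + 1 + 2) B :=
    H.union (by simp) (h3κ'.le.trans hκ.le) hg hterm hU
  exact H.compl_sig (lt_add_one _) (h4κ.le.trans hκ.le) hBs (compl_compl hAreal hB)

end Pool.Agent.LibBU85
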