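import Pool.Agent.LibBU85.C1
import Pool.Agent.LibBU85.B1
import Pool.Agent.LibBU85.A4

/-!
BU85 C4. There is a real in which `0` has rank `γ`.

Plan. `enum_succ` gives `e` with `e (0) = j γ` and range `j (γ + 1)`; so `e (jn j a) = j (ε a)` with
`ε : ℕ → Ordinal`, `ε 0 = γ`, `ε` onto the ordinals `≤ γ`. By `exists_real` there is `x` with
`rv x m = if ε (cp m).1 < ε (cp m).2 then 1 else 0`: formula in `m`, `z`: let
`L := ∃ p a b u v, Rel G m p ∧ OPair p a b ∧ Rel e a u ∧ Rel e b v ∧ u ∈ v`; (`L` and `z = jn j 1`) or (not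
`L` and `z = jn j 0`). Then `Cr x a b ↔ ε a < ε b` (`cr_iff`, `cp_bij`). By induction on `δ ≤ γ`:
`Rk x k (j δ) ↔ ε k ≤ δ` (`rk_iff`: for all `a` with `ε a < ε k` there is `δ' < δ` with `ε a ≤ δ'`, i.e.
`ε a < δ`; if `δ < ε k` take `a` with `ε a = δ`). So `0` has rank exactly `ε 0 = γ` (`rkx_iff`).
-/

namespace Pool.Agent.LibBU85

open Pool.Agent.LibBc83 Pool.Agent.LibBd83

variable {M : Type} {E : M → M → Prop} {w : M} {j : Ordinal.{0} → M} {α : Ordinal.{0}}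

variable {G : M}

theorem v_ne (C : Cx E w j α) (hG : IsG E w j G) {γ : Ordinal.{0}} (hγ : γ + 1 ≤ α)
    (hc : γ ≠ 0 → Cb E w (j γ)) :
    ∃ x, Real E w x ∧ Rkx E w G x (jn j 0) (j γ) := by
  classical
  obtain ⟨e, he, he0, her⟩ := C.enum_succ hγ hc
  have hex : ∀ n : ℕ, ∃ δ : Ordinal.{0}, δ < γ + 1 ∧ Rel E e (jn j n) (j δ) := by
    intro n
    obtain ⟨z, hz⟩ := seq_ex he (C.jn_mem n)
    obtain ⟨δ, hδ, rfl⟩ := (C.st (γ + 1) hγ z).1 ((her z).2 ⟨n, hz⟩)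
    exact ⟨δ, hδ, hz⟩
  choose ε hε hεr using hex
  have hεα : ∀ n, ε n ≤ α := fun n => (hε n).le.trans hγ
  have hγα : γ ≤ α := (le_self_add).trans hγ
  have hε0 : ε 0 = γ := C.inj (hεα 0) hγα ((he0 _).1 (hεr 0))
  have hsurj : ∀ δ < γ + 1, ∃ n, ε n = δ := by
    intro δ hδ
    obtain ⟨n, hn⟩ := (her (j δ)).1 ((C.st (γ + 1) hγ _).2 ⟨δ, hδ, rfl⟩)
    exact ⟨n, C.inj (hεα n) (hδ.le.trans hγ) (seq_uniq he (C.jn_mem n) (hεr n) hn)⟩
  have hL : ∀ n : ℕ, (∃ p a b u v, Rel E G (jn j n) p ∧ OPair E p a b ∧ Rel E e a u ∧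
      Rel E e b v ∧ E u v) ↔ ε (cp n).1 < ε (cp n).2 := by
    intro n
    constructor
    · rintro ⟨p, a, b, u, v, h1, h2, h3, h4, h5⟩
      obtain ⟨rfl, rfl⟩ := op_inj C.zf h2 ((hG.2 n p).1 h1)
      have h6 := seq_uniq he (C.jn_mem _) h3 (hεr (cp n).1)
      have h7 := seq_uniq he (C.jn_mem _) h4 (hεr (cp n).2)
      subst h6
      subst h7
      exact (C.mem_iff (hεα _) (hεα _)).1 h5
    · intro h
      obtain ⟨p, hp⟩ := op_ex C.zf (jn j (cp n).1) (jn j (cp n).2)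
      exact ⟨p, _, _, _, _, (hG.2 n p).2 hp, hp, hεr _, hεr _, (C.mem_iff (hεα _) (hεα _)).2 h⟩
  obtain ⟨x, hx, hxv⟩ := C.exists_real
    (.or (.and (.ex (.ex (.ex (.ex (.ex (.and (.rel 7 5 4) (.and (.oPair 4 3 2) (.and (.rel 8 3 1)
      (.and (.rel 8 2 0) (.mem 1 0)))))))))) (.eq 1 4))
      (.and (.neg (.ex (.ex (.ex (.ex (.ex (.and (.rel 7 5 4) (.and (.oPair 4 3 2) (.and (.rel 8 3 1)
      (.and (.rel 8 2 0) (.mem 1 0))))))))))) (.eq 1 5)))
    (cons G (cons e (cons (jn j 1) (fun _ => jn j 0))))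
    (fun n => if ε (cp n).1 < ε (cp n).2 then 1 else 0) (by
      intro n z
      have h1 : Sat E (.ex (.ex (.ex (.ex (.ex (.and (.rel 7 5 4) (.and (.oPair 4 3 2) (.and (.rel 8 3 1)
          (.and (.rel 8 2 0) (.mem 1 0))))))))))
          (cons (jn j n) (cons z (cons G (cons e (cons (jn j 1) (fun _ => jn j 0)))))) ↔
          ε (cp n).1 < ε (cp n).2 := by
        rw [← hL n]
        simp [cons]
      rw [sat_or, sat_and, sat_and, sat_neg, h1]
      have h2 : Sat E (.eq 1 4) (cons (jn j n) (cons z (cons G (cons e (cons (jn j 1)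
          (fun _ => jn j 0)))))) ↔ z = jn j 1 := Iff.rfl
      have h3 : Sat E (.eq 1 5) (cons (jn j n) (cons z (cons G (cons e (cons (jn j 1)
          (fun _ => jn j 0)))))) ↔ z = jn j 0 := Iff.rfl
      rw [h2, h3]
      by_cases h : ε (cp n).1 < ε (cp n).2
      · rw [if_pos h]
        simp [h]
      · rw [if_neg h]
        simp [h])
  have hcr : ∀ a b : ℕ, Cr E w G x (jn j a) (jn j b) ↔ ε a < ε b := by
    intro a b
    rw [C.cr_iff hG hx]
    constructor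
    · rintro ⟨m, hm, hne⟩
      rw [hxv, hm] at hne
      by_contra hcon
      exact hne (if_neg hcon)
    · intro h
      obtain ⟨m, hm⟩ := cp_bij.2 (a, b)
      refine ⟨m, hm, ?_⟩
      rw [hxv, hm, if_pos h]
      exact one_ne_zero
  have hrk : ∀ δ : Ordinal.{0}, δ ≤ γ → ∀ k : ℕ, Rk E w G x (jn j k) (j δ) ↔ ε k ≤ δ := by
    intro δ
    induction δ using WellFoundedLT.induction with
    | ind δ ih =>
      intro hδ k
      have hδ1 : δ + 1 ≤ α := (add_le_add_left hδ 1).trans hγ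
      rw [C.rk_iff x k hδ1]
      constructor
      · intro h
        by_contra hcon
        rw [not_le] at hcon
        obtain ⟨a, ha⟩ := hsurj δ (hcon.trans (hε k))
        obtain ⟨δ', hδ', hr⟩ := h a ((hcr a k).2 (by rw [ha]; exact hcon))
        have h1 := (ih δ' hδ' (hδ'.le.trans hδ) a).1 hr
        rw [ha] at h1
        exact absurd hδ' (not_lt_of_ge h1)
      · intro h a ha
        have h1 : ε a < δ := ((hcr a k).1 ha).trans_le h
        exact ⟨ε a, h1, (ih (ε a) h1 (h1.le.trans hδ) a).2 le_rfl⟩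
  refine ⟨x, hx, (C.rkx_iff x 0 hγα).2 ⟨(hrk γ le_rfl 0).2 hε0.le, fun δ' hδ' hr => ?_⟩⟩
  have h1 := (hrk δ' hδ'.le 0).1 hr
  rw [hε0] at h1
  exact absurd hδ' (not_lt_of_ge h1)

end Pool.Agent.LibBU85
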