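import Pool.Agent.LibBU85.C1

/-!
BU85 C5. All smaller ranks occur.

Plan. Let `Q` be the set of the ordinals `β ≤ γ` such that some `k : ℕ` has rank exactly `β` in `x`; `γ ∈ Q`.
Let `β` be the least element of `Q` with `δ ≤ β`, and suppose `δ < β`, `k` of rank exactly `β`
(`rkx_iff`). For each `a` below `k` there is `β' < β` with `Rk x a (j β')` (`rk_iff`); the least such `β'`
is the exact rank of `a`, so it is in `Q` and by minimality `β' < δ`. Hence `Rk x k (j δ)` by `rk_iff`,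
against `δ < β`. So `β = δ`.
-/

namespace Pool.Agent.LibBU85

open Pool.Agent.LibBc83 Pool.Agent.LibBd83

variable {M : Type} {E : M → M → Prop} {w : M} {j : Ordinal.{0} → M} {α : Ordinal.{0}}

variable {G : M}

theorem all_ranks (C : Cx E w j α) {x : M} {γ : Ordinal.{0}} (hγ : γ + 1 ≤ α)
    (h : ∃ k : ℕ, Rkx E w G x (jn j k) (j γ)) {δ : Ordinal.{0}} (hδ : δ ≤ γ) :
    ∃ k : ℕ, Rkx E w G x (jn j k) (j δ) := by
  induction γ using WellFoundedLT.induction with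
  | ind γ ih =>
    rcases hδ.eq_or_lt with rfl | hlt
    · exact h
    obtain ⟨k, hk⟩ := h
    have hγα : γ ≤ α := le_trans (le_add_of_nonneg_right zero_le_one) hγ
    have hδα : δ + 1 ≤ α := le_trans (add_le_add_left hδ 1) hγ
    obtain ⟨hk1, hk2⟩ := (C.rkx_iff x k hγα).1 hk
    have hex : ∃ a : ℕ, Cr E w G x (jn j a) (jn j k) ∧
        ∀ δ' < δ, ¬ Rk E w G x (jn j a) (j δ') := by
      by_contra hcon
      push Not at hcon
      exact hk2 δ hlt ((C.rk_iff x k hδα).2 hcon)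
    obtain ⟨a, ha, ha2⟩ := hex
    obtain ⟨β', hβ', hβr⟩ := (C.rk_iff x k hγ).1 hk1 a ha
    have hmin : ∃ β < γ, Rk E w G x (jn j a) (j β) ∧
        ∀ δ' < β, ¬ Rk E w G x (jn j a) (j δ') := by
      have hne : {β | β < γ ∧ Rk E w G x (jn j a) (j β)}.Nonempty := ⟨β', hβ', hβr⟩
      have hwf : WellFounded (fun a b : Ordinal.{0} => a < b) := wellFounded_lt
      refine ⟨hwf.min _ hne, (hwf.min_mem _ hne).1, (hwf.min_mem _ hne).2, fun δ' h1 h2 => ?_⟩
      have h3 : δ' ∈ {β | β < γ ∧ Rk E w G x (jn j a) (j β)} :=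
        ⟨h1.trans (hwf.min_mem _ hne).1, h2⟩
      exact hwf.not_lt_min _ h3 h1
    obtain ⟨β, hβ, hb1, hb2⟩ := hmin
    have hβ1 : β + 1 ≤ α := le_trans (add_le_add_left hβ.le 1) hγ
    have hβα : β ≤ α := le_trans (le_add_of_nonneg_right zero_le_one) hβ1
    refine ih β hβ hβ1 ⟨a, (C.rkx_iff x a hβα).2 ⟨hb1, hb2⟩⟩ ?_
    by_contra hcon
    exact ha2 β (not_le.1 hcon) hb1

theorem rkx_uniq (C : Cx E w j α) {x : M} {k : ℕ} {γ δ : Ordinal.{0}} (hγ : γ ≤ α) (hδ : δ ≤ α)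
    (h : Rkx E w G x (jn j k) (j γ)) (h' : Rkx E w G x (jn j k) (j δ)) : γ = δ := by
  obtain ⟨h1, h2⟩ := (C.rkx_iff x k hγ).1 h
  obtain ⟨h1', h2'⟩ := (C.rkx_iff x k hδ).1 h'
  rcases lt_trichotomy γ δ with h3 | h3 | h3
  · exact absurd h1 (h2' γ h3)
  · exact h3
  · exact absurd h1' (h2 δ h3)

end Pool.Agent.LibBU85
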