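import Pool.Agent.LibBU85.C5
import Pool.Agent.LibBU85.B1
import Pool.Agent.LibBU85.A4

/-!
BU85 C6. From a sequence of reals with unbounded ranks to an enumeration of `κ`.

Plan. `mk_seq` with the formula in `m`, `z`: there are `p a b x` with `Rel G m p`, `OPair p a b`, `Rel f a x`
and ((`z ∈ j κ` and `Rkx x b z`) or (there is no `u ∈ j κ` with `Rkx x b u`, and `Emp z`)) (`Fm'.rkx`).
For each `m` there is exactly one such `z` (`rkx_uniq`; the members of `j κ` are the `j δ`, `δ < κ`;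
`Emp z ↔ z = j 0`). The range is `j κ`: `j 0 ∈ j κ`; for `δ < κ` take `n` with `δ ≤ γ`, `Rel r (jn j n) (j γ)`,
the real `x` of `f` at `n` has some `k` of rank exactly `δ` (`all_ranks`), and `m` with `cp m = (n, k)`
(`cp_bij`). `cb_iff`.
-/

namespace Pool.Agent.LibBU85

open Pool.Agent.LibBc83 Pool.Agent.LibBd83

variable {M : Type} {E : M → M → Prop} {w : M} {j : Ordinal.{0} → M} {α : Ordinal.{0}}

variable {G : M}

private theorem C6_phi (G f w K m z : M) (v : ℕ → M) :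
    Sat E (Fm.ex (Fm.ex (Fm.ex (Fm.ex (.and (.rel 6 4 3) (.and (.oPair 3 2 1) (.and (.rel 7 2 0)
      (Fm.or (.and (.mem 5 9) (Fm'.rkx 8 6 0 1 5))
        (.and (.neg (Fm.ex (.and (.mem 0 10) (Fm'.rkx 9 7 1 2 0)))) (.emp 5)))))))))
      ) (cons m (cons z (cons G (cons f (cons w (cons K v)))))) ↔
    ∃ p a b x, Rel E G m p ∧ OPair E p a b ∧ Rel E f a x ∧
      ((E z K ∧ Rkx E w G x b z) ∨ ((¬ ∃ u, E u K ∧ Rkx E w G x b u) ∧ Emp E z)) := by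
  simp

theorem surj (C : Cx E w j α) (hG : IsG E w j G) {κ : Ordinal.{0}} (hκ : κ ≤ α) (h0 : κ ≠ 0)
    (hs : ∀ γ < κ, γ + 1 < κ) {f r : M} (hf : Seq E w f) (hr : Seq E w r)
    (h : ∀ n : ℕ, ∃ γ < κ, ∃ x, Rel E r (jn j n) (j γ) ∧ Rel E f (jn j n) x ∧ Real E w x ∧
      Rkx E w G x (jn j 0) (j γ))
    (hu : ∀ δ < κ, ∃ (n : ℕ), ∃ γ < κ, δ ≤ γ ∧ Rel E r (jn j n) (j γ)) : Cb E w (j κ) := by
  have hZ : IsZF E := C.zf
  have hst := C.st κ hκ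
  -- the meaning of the formula
  have key : ∀ (m : ℕ) (x z : M), Rel E f (jn j (cp m).1) x →
      ((∃ p a b x', Rel E G (jn j m) p ∧ OPair E p a b ∧ Rel E f a x' ∧
        ((E z (j κ) ∧ Rkx E w G x' b z) ∨
          ((¬ ∃ u, E u (j κ) ∧ Rkx E w G x' b u) ∧ Emp E z))) ↔
      ((E z (j κ) ∧ Rkx E w G x (jn j (cp m).2) z) ∨
          ((¬ ∃ u, E u (j κ) ∧ Rkx E w G x (jn j (cp m).2) u) ∧ Emp E z))) := by
    intro m x z hx
    constructor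
    · rintro ⟨p, a, b, x', hp, hab, hx', hz⟩
      have h1 := (hG.2 m p).1 hp
      obtain ⟨rfl, rfl⟩ := op_inj hZ hab h1
      have h2 : x' = x := seq_uniq hf (C.jn_mem _) hx' hx
      rwa [h2] at hz
    · intro hz
      obtain ⟨p, hp⟩ := op_ex hZ (jn j (cp m).1) (jn j (cp m).2)
      exact ⟨p, _, _, x, (hG.2 m p).2 hp, hp, hx, hz⟩
  have hj0 : E (j 0) (j κ) := (hst _).2 ⟨0, pos_iff_ne_zero.2 h0, rfl⟩
  obtain ⟨g, hg, hgr⟩ := C.mk_seq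
    (Fm.ex (Fm.ex (Fm.ex (Fm.ex (.and (.rel 6 4 3) (.and (.oPair 3 2 1) (.and (.rel 7 2 0)
      (Fm.or (.and (.mem 5 9) (Fm'.rkx 8 6 0 1 5))
        (.and (.neg (Fm.ex (.and (.mem 0 10) (Fm'.rkx 9 7 1 2 0)))) (.emp 5)))))))))
      ) (cons G (cons f (cons w (cons (j κ) fun _ => w)))) (by
    intro m
    obtain ⟨x, hx⟩ := seq_ex hf (C.jn_mem (cp m).1)
    by_cases hc : ∃ u, E u (j κ) ∧ Rkx E w G x (jn j (cp m).2) u
    · obtain ⟨u, hu1, hu2⟩ := hc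
      refine ⟨u, fun z' => ?_⟩
      rw [C6_phi, key m x z' hx]
      constructor
      · rintro (⟨h1, h2⟩ | ⟨h1, h2⟩)
        · obtain ⟨γ, hγ, rfl⟩ := (hst _).1 h1
          obtain ⟨δ, hδ, rfl⟩ := (hst _).1 hu1
          rw [rkx_uniq C (hγ.le.trans hκ) (hδ.le.trans hκ) h2 hu2]
        · exact absurd ⟨u, hu1, hu2⟩ h1
      · rintro rfl
        exact Or.inl ⟨hu1, hu2⟩
    · refine ⟨j 0, fun z' => ?_⟩
      rw [C6_phi, key m x z' hx]
      constructor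
      · rintro (⟨h1, h2⟩ | ⟨h1, h2⟩)
        · exact absurd ⟨z', h1, h2⟩ hc
        · exact emp_uniq hZ h2 C.emp
      · rintro rfl
        exact Or.inr ⟨hc, C.emp⟩)
  rw [C.cb_iff]
  refine ⟨g, hg, fun z => ⟨fun hz => ?_, ?_⟩⟩
  · obtain ⟨δ, hδ, rfl⟩ := (hst _).1 hz
    obtain ⟨n, γ, hγ, hδγ, hrn⟩ := hu δ hδ
    obtain ⟨γ', hγ', x, hrn', hfx, hx, hrk⟩ := h n
    have h1 : γ = γ' := C.inj (hγ.le.trans hκ) (hγ'.le.trans hκ)
      (seq_uniq hr (C.jn_mem n) hrn hrn')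
    subst h1
    obtain ⟨k, hk⟩ := all_ranks C ((hs γ hγ).le.trans hκ) ⟨0, hrk⟩ hδγ
    obtain ⟨m, hm⟩ := cp_bij.2 (n, k)
    refine ⟨m, ?_⟩
    have hfx' : Rel E f (jn j (cp m).1) x := by rw [hm]; exact hfx
    rw [hgr, C6_phi, key m x (j δ) hfx']
    refine Or.inl ⟨hz, ?_⟩
    rw [hm]
    exact hk
  · rintro ⟨m, hm⟩
    obtain ⟨x, hx⟩ := seq_ex hf (C.jn_mem (cp m).1)
    rw [hgr, C6_phi, key m x z hx] at hm
    rcases hm with ⟨h1, -⟩ | ⟨-, h1⟩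
    · exact h1
    · rw [emp_uniq hZ h1 C.emp]
      exact hj0

end Pool.Agent.LibBU85
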