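import Pool.Agent.LibBU85.H5

/-!
BU85 H6. The set `Â` of a sequence with terms in lower classes.

Plan. `a = {z : ∃ n A x, n ∈ w, Rel s n A, x ∈ A, Prep n x z}` by `sep_real` (all such `z` are reals), so
`Hat E w s a`. It is the union of the sequence of the sets `n⌢A_n` (`mk_sets` with the formula
`∃ A x', Rel s n A ∧ x' ∈ A ∧ Prep w n x' x`); `n⌢A_n` is in `Σ⁰_β` for some `β < κ`, `β ≠ 0` (`HC.pre`), so it is
the complement of its complement, which is in `Σ⁰_(β+1)`, `β + 1 < κ` (`compl_ex`, `compl_compl`,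
`compl_sig`); `HC.iff` for `κ` (`1 < κ`).
-/

namespace Pool.Agent.LibBU85

open Pool.Agent.LibBc83 Pool.Agent.LibBd83

variable {M : Type} {E : M → M → Prop} {w : M} {j : Ordinal.{0} → M} {α : Ordinal.{0}}

variable {F : M}

theorem HC.hat (H : HC E w j α F) {κ : Ordinal.{0}} (hκ : κ ≤ α) (hω : Ordinal.omega0 ≤ κ)
    (hs : ∀ γ < κ, γ + 1 < κ) {s : M} (h : Seq E w s)
    (hA : ∀ (n : ℕ) z, Rel E s (jn j n) z → ∃ β < κ, Sg E j F β z) :
    ∃ a, Hat E w s a ∧ Sg E j F κ a := by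
  have C := H.cx
  -- the set of the pairs
  obtain ⟨a, ha⟩ := C.sep_real
    (Fm.ex (Fm.ex (Fm.ex (Fm.and (Fm.mem 2 4) (Fm.and (Fm.rel 5 2 1) (Fm.and (Fm.mem 0 1)
      (Fm'.prp 4 2 0 3))))))) (cons w (cons s fun _ => w))
  have ha' : ∀ z, E z a ↔ Real E w z ∧ ∃ n A x, E n w ∧ Rel E s n A ∧ E x A ∧ Prep E w n x z := by
    intro z
    rw [ha z]
    simp only [sat_ex, sat_and, sat_mem, sat_rel, sat_prp, cons_zero, cons_succ]
  have hat : Hat E w s a := by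
    intro z
    rw [ha' z]
    constructor
    · exact fun h1 => h1.2
    · rintro ⟨n, A, x, h1, h2, h3, h4⟩
      exact ⟨h4.1, n, A, x, h1, h2, h3, h4⟩
  -- the sequence of the sets
  obtain ⟨g, hg, hgv⟩ := C.mk_sets
    (Fm.ex (Fm.ex (Fm.and (Fm.rel 5 3 1) (Fm.and (Fm.mem 0 1) (Fm'.prp 4 3 0 2)))))
    (cons w (cons s fun _ => w))
  have hgv' : ∀ (n : ℕ) z, Rel E g (jn j n) z ↔ ∀ x, E x z ↔ Real E w x ∧
      ∃ A x', Rel E s (jn j n) A ∧ E x' A ∧ Prep E w (jn j n) x' x := by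
    intro n z
    rw [hgv n z]
    simp only [sat_ex, sat_and, sat_mem, sat_rel, sat_prp, cons_zero, cons_succ]
  refine ⟨a, hat, (H.iff hκ a).2 (Or.inr ⟨Ordinal.one_lt_omega0.trans_le hω, g, hg, ?_, ?_⟩)⟩
  · intro n z hz
    have hz' := (hgv' n z).1 hz
    obtain ⟨A, hAu⟩ := C.seq_val h n
    have hAs : Rel E s (jn j n) A := (hAu A).2 rfl
    obtain ⟨β, hβ, hβA⟩ := hA n A hAs
    have hβα : β ≤ α := hβ.le.trans hκ
    have hzβ : Sg E j F β z := by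
      refine H.pre hβα n hβA fun x => ?_
      rw [hz' x]
      constructor
      · rintro ⟨-, A', x', h1, h2, h3⟩
        rw [(hAu A').1 h1] at h2
        exact ⟨x', h2, h3⟩
      · rintro ⟨x', h2, h3⟩
        exact ⟨h3.1, A, x', hAs, h2, h3⟩
    obtain ⟨c, hc⟩ := C.compl_ex z
    have hzr : ∀ x, E x z → Real E w x := fun x hx => ((hz' x).1 hx).1
    have hs1 : β + 1 < κ := hs β hβ
    refine ⟨β + 1, hs1, ?_, c, ?_, compl_compl hzr hc⟩
    · exact (Order.bot_lt_succ β).ne'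
    · exact H.compl_sig (Order.lt_succ β) (hs1.le.trans hκ) hzβ hc
  · rw [C.union_iff]
    intro x
    rw [ha' x]
    constructor
    · rintro ⟨hx, n, A, x', h1, h2, h3, h4⟩
      obtain ⟨k, rfl⟩ := C.mem_w.1 h1
      obtain ⟨z, hz⟩ := C.seq_val hg k
      have hz1 : Rel E g (jn j k) z := (hz z).2 rfl
      exact ⟨k, z, hz1, ((hgv' k z).1 hz1 x).2 ⟨hx, A, x', h2, h3, h4⟩⟩
    · rintro ⟨k, z, hz1, hxz⟩
      obtain ⟨hx, A, x', h2, h3, h4⟩ := ((hgv' k z).1 hz1 x).1 hxz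
      exact ⟨hx, jn j k, A, x', C.jn_mem k, h2, h3, h4⟩

end Pool.Agent.LibBU85
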