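import Pool.Agent.LibBU85.C3
import Pool.Agent.LibBU85.C4
import Pool.Agent.LibBU85.C6
import Pool.Agent.LibBU85.H6
import Pool.Agent.LibBU85.B2

/-!
BU85 D1. Countable choice implies that `κ` is regular for the sequences of the model.

Plan. Let `r` be a sequence with values `j γ`, `γ < κ`, and suppose it is not bounded: for each `δ < κ` there
are `n` and `γ` with `δ ≤ γ < κ`, `Rel r (jn j n) (j γ)`. `mk_sets` with the formula
`∃ b, Rel r n b ∧ Rkx w G x (jn j 0) b` gives a sequence `s` of sets with `IsV E w G (jn j 0) (j γ_n) (s n)`; the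
terms are not empty (`v_ne`, with `hκ.cb`, `hκ.suc`) and in `Σ⁰_β`, `β < κ` (`v_sig`), so in `Σ⁰_α`
(`HC.mono`), i.e. `SigO E (j α) w` (`sigO_iff`). For `ACUo` also `HC.hat` (and `HC.mono` from `κ` to `α`). A
choice function `f` and `surj` give `Cb E w (j κ)`, against `hκ.ncb`.
-/

namespace Pool.Agent.LibBU85

open Pool.Agent.LibBc83 Pool.Agent.LibBd83

variable {M : Type} {E : M → M → Prop} {w : M} {j : Ordinal.{0} → M} {α : Ordinal.{0}}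

variable {F G : M}

private theorem D1_core (H : HC E w j α F) (hG : IsG E w j G) {κ : Ordinal.{0}}
    (hκ : IsKap E w j α κ)
    (hch : ∀ s, Seq E w s → (∀ (n : ℕ) z, Rel E s (jn j n) z → ∃ β < κ, Sg E j F β z) →
      (∀ (n : ℕ) z, Rel E s (jn j n) z → ∃ x, E x z) →
      ∃ f, Seq E w f ∧ ∀ (n : ℕ) A x, Rel E s (jn j n) A → Rel E f (jn j n) x → E x A) :
    Reg E w j κ := by
  intro r hr hval
  by_contra hcon
  have hu : ∀ δ < κ, ∃ (n : ℕ), ∃ γ < κ, δ ≤ γ ∧ Rel E r (jn j n) (j γ) := by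
    intro δ hδ
    by_contra hc
    refine hcon ⟨δ, hδ, fun n γ hγ hrel => ?_⟩
    by_contra hlt
    exact hc ⟨n, γ, hγ, not_lt.1 hlt, hrel⟩
  obtain ⟨s, hs, hs2⟩ := H.cx.mk_sets (.ex (.and (.rel 3 2 0) (Fm'.rkx 4 5 1 6 0)))
    (cons r (cons w (cons G (cons (jn j 0) (fun _ => w)))))
  have hs3 : ∀ (n : ℕ) z, Rel E s (jn j n) z ↔ ∀ x, E x z ↔ Real E w x ∧
      ∃ b, Rel E r (jn j n) b ∧ Rkx E w G x (jn j 0) b := by
    intro n z
    rw [hs2 n z]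
    simp [cons]
  have hV : ∀ (n : ℕ) z (γ : Ordinal.{0}), Rel E s (jn j n) z → Rel E r (jn j n) (j γ) →
      IsV E w G (jn j 0) (j γ) z := by
    intro n z γ hz hγ x
    obtain ⟨b0, hb0⟩ := H.cx.seq_val hr n
    rw [(hs3 n z).1 hz x]
    constructor
    · rintro ⟨hx, b, hb, hbk⟩
      have e1 := (hb0 b).1 hb
      have e2 := (hb0 (j γ)).1 hγ
      rw [e1, ← e2] at hbk
      exact ⟨hx, hbk⟩
    · rintro ⟨hx, hk⟩
      exact ⟨hx, j γ, hγ, hk⟩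
  have hne : ∀ (n : ℕ) z, Rel E s (jn j n) z → ∃ x, E x z := by
    intro n z hz
    obtain ⟨γ, hγ, hrel⟩ := hval n
    obtain ⟨x, hx, hxk⟩ := v_ne H.cx hG ((hκ.suc γ hγ).le.trans hκ.le) (hκ.cb γ hγ)
    exact ⟨x, (hV n z γ hz hrel x).2 ⟨hx, hxk⟩⟩
  have hsig : ∀ (n : ℕ) z, Rel E s (jn j n) z → ∃ β < κ, Sg E j F β z := by
    intro n z hz
    obtain ⟨γ, hγ, hrel⟩ := hval n
    obtain ⟨β, hβ, hA⟩ := v_sig H hG hκ hγ
    exact ⟨β, hβ, hA z (hV n z γ hz hrel)⟩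
  obtain ⟨f, hf, hf2⟩ := hch s hs hsig hne
  have h0 : κ ≠ 0 := by
    rintro rfl
    exact absurd hκ.inf (not_le.2 Ordinal.omega0_pos)
  refine hκ.ncb (surj H.cx hG hκ.le h0 hκ.suc hf hr ?_ hu)
  intro n
  obtain ⟨γ, hγ, hrel⟩ := hval n
  obtain ⟨x, hx⟩ := H.cx.seq_val hf n
  obtain ⟨A, hA⟩ := H.cx.seq_val hs n
  have hxA : E x A := hf2 n A x ((hA A).2 rfl) ((hx x).2 rfl)
  obtain ⟨h1, h2⟩ := (hV n A γ ((hA A).2 rfl) hrel x).1 hxA
  exact ⟨γ, hγ, x, hrel, (hx x).2 rfl, h1, h2⟩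

theorem reg_acr (H : HC E w j α F) (hG : IsG E w j G) {κ : Ordinal.{0}}
    (hκ : IsKap E w j α κ) (hA : ACRo E (j α)) : Reg E w j κ := by
  refine D1_core H hG hκ ?_
  intro s hs hsig hne
  obtain ⟨f, hf, hf2⟩ := hA w s H.cx.om hs
    (by
      intro n A hn hnA
      obtain ⟨m, rfl⟩ := H.cx.mem_w.1 hn
      exact hne m A hnA)
    (by
      intro n A hn hnA
      obtain ⟨m, rfl⟩ := H.cx.mem_w.1 hn
      obtain ⟨β, hβ, hS⟩ := hsig m A hnA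
      exact (H.sigO_iff le_rfl).2 (H.mono (hβ.le.trans hκ.le) le_rfl hS))
  exact ⟨f, hf, fun n A x h1 h2 => hf2 _ A x (H.cx.jn_mem n) h1 h2⟩

theorem reg_acu (H : HC E w j α F) (hG : IsG E w j G) {κ : Ordinal.{0}}
    (hκ : IsKap E w j α κ) (hA : ACUo E (j α)) : Reg E w j κ := by
  refine D1_core H hG hκ ?_
  intro s hs hsig hne
  obtain ⟨a, ha, haS⟩ := H.hat hκ.le hκ.inf hκ.suc hs hsig
  obtain ⟨f, hf, hf2⟩ := hA w s H.cx.om hs
    (by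
      intro n A hn hnA
      obtain ⟨m, rfl⟩ := H.cx.mem_w.1 hn
      exact hne m A hnA)
    (by
      refine ⟨?_, a, ha, (H.sigO_iff le_rfl).2 (H.mono hκ.le le_rfl haS)⟩
      intro n A hn hnA
      obtain ⟨m, rfl⟩ := H.cx.mem_w.1 hn
      obtain ⟨β, hβ, hS⟩ := hsig m A hnA
      exact (H.sigO_iff le_rfl).2 (H.mono (hβ.le.trans hκ.le) le_rfl hS))
  exact ⟨f, hf, fun n A x h1 h2 => hf2 _ A x (H.cx.jn_mem n) h1 h2⟩

end Pool.Agent.LibBU85
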