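import Pool.Agent.LibBc83.CoreDef
import Pool.Agent.LibBc83.U4
import Pool.Agent.LibBd83.Def2

/-!
Block BU85 (MP_702eac): the Borel classes of a model for its own ordinals, and the negative answer for
the uncountable ordinals. Definitions.

`j` maps the ordinals to elements of the model; `St E j α` says that the ordinals up to `α` are standard
in `(M, E)`: the members of `j β` are the elements `j γ`, `γ < β`.
-/

namespace Pool.Agent.LibBU85

open Pool.Agent.LibBc83 Pool.Agent.LibBd83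

section

variable {M : Type} (E : M → M → Prop)

/-- The ordinals up to `α` are standard in the model. -/
def St (j : Ordinal.{0} → M) (α : Ordinal.{0}) : Prop :=
  ∀ β ≤ α, ∀ x, E x (j β) ↔ ∃ γ < β, x = j γ

/-- `a` is not empty and is the range of a sequence of the model. -/
def Cb (w a : M) : Prop := ∃ f, Seq E w f ∧ ∀ x, E x a ↔ ∃ n, E n w ∧ Rel E f n x

/-- The context: a model of ZF in which the ordinals up to `α ≥ ω` are standard. -/
structure Cx (w : M) (j : Ordinal.{0} → M) (α : Ordinal.{0}) : Prop where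
  zf : IsZF E
  om : Om E w
  st : St E j α
  inf : Ordinal.omega0 ≤ α

/-- The natural number `n` of the model. -/
def jn (j : Ordinal.{0} → M) (n : ℕ) : M := j (n : Ordinal.{0})

end

/-! ### The enumeration of the pairs of natural numbers -/

/-- The next pair. -/
def cnx : ℕ × ℕ → ℕ × ℕ
  | (a, 0) => (0, a + 1)
  | (a, b + 1) => (a + 1, b)

/-- The pairs `(0,0), (0,1), (1,0), (0,2), (1,1), (2,0), ...`. -/
def cp : ℕ → ℕ × ℕ
  | 0 => (0, 0)
  | n + 1 => cnx (cp n)

section

variable {M : Type} (E : M → M → Prop)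

/-- `G` is the sequence of the pairs `cp n` in the model. -/
def IsG (w : M) (j : Ordinal.{0} → M) (G : M) : Prop :=
  Seq E w G ∧ ∀ (n : ℕ) (p : M), Rel E G (jn j n) p ↔ OPair E p (jn j (cp n).1) (jn j (cp n).2)

/-- The relation coded by `x`: `x (m) ≠ 0`, where `m` is the number of the pair `(a, b)`. -/
def Cr (w G x a b : M) : Prop :=
  ∃ m, E m w ∧ ∃ p, OPair E p a b ∧ Rel E G m p ∧ ∃ o, Emp E o ∧ ¬ Rel E x m o

/-- `k` has rank at most `d` for the relation coded by `x`: there is a sequence `r` with `r (k) ≤ d`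
such that `r (a) < r (i)` if `a` is below `i` and `r (i) ≤ d`. -/
def Rk (w G x k d : M) : Prop :=
  ∃ r, Seq E w r ∧ (∀ b, Rel E r k b → E b d ∨ b = d) ∧
    ∀ i b, E i w → Rel E r i b → (E b d ∨ b = d) →
      ∀ a c, E a w → Cr E w G x a i → Rel E r a c → E c b

/-- `k` has rank exactly `d`. -/
def Rkx (w G x k d : M) : Prop := Rk E w G x k d ∧ ∀ b, E b d → ¬ Rk E w G x k b

end

namespace Fm'

open Fm

def cr (w G x a b : ℕ) : Fm :=
  ex (and (mem 0 (w+1)) (ex (and (oPair 0 (a+2) (b+2)) (and (rel (G+2) 1 0)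
    (ex (and (emp 0) (neg (rel (x+3) 2 0))))))))

def rk (w G x k d : ℕ) : Fm :=
  ex (and (seq (w+1) 0) (and (all (imp (rel 1 (k+2) 0) (or (mem 0 (d+2)) (eq 0 (d+2)))))
    (all (all (imp (mem 1 (w+3)) (imp (rel 2 1 0) (imp (or (mem 0 (d+3)) (eq 0 (d+3)))
      (all (all (imp (mem 1 (w+5)) (imp (cr (w+5) (G+5) (x+5) 1 3) (imp (rel 4 1 0)
        (mem 0 2)))))))))))))

def rkx (w G x k d : ℕ) : Fm :=
  and (rk w G x k d) (all (imp (mem 0 (d+1)) (neg (rk (w+1) (G+1) (x+1) (k+1) 0))))

/-- `z` is the concatenation of `n` and `x`. -/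
def prp (w n x z : ℕ) : Fm :=
  and (real w z) (and (all (imp (emp 0) (rel (z+1) 0 (n+1))))
    (all (all (all (imp (mem 2 (w+3)) (imp (suc 1 2) (imp (rel (x+3) 2 0) (rel (z+3) 1 0))))))))

end Fm'

section

variable {M : Type} {E : M → M → Prop} (v : ℕ → M)

@[simp] theorem sat_cr (w G x a b : ℕ) :
    Sat E (Fm'.cr w G x a b) v ↔ Cr E (v w) (v G) (v x) (v a) (v b) := by
  simp [Fm'.cr, Cr]

@[simp] theorem sat_rk (w G x k d : ℕ) :
    Sat E (Fm'.rk w G x k d) v ↔ Rk E (v w) (v G) (v x) (v k) (v d) := by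
  simp [Fm'.rk, Rk]

@[simp] theorem sat_rkx (w G x k d : ℕ) :
    Sat E (Fm'.rkx w G x k d) v ↔ Rkx E (v w) (v G) (v x) (v k) (v d) := by
  simp [Fm'.rkx, Rkx]

@[simp] theorem sat_prp (w n x z : ℕ) :
    Sat E (Fm'.prp w n x z) v ↔ Prep E (v w) (v n) (v x) (v z) := by
  simp [Fm'.prp, Prep]

end

section

variable {M : Type} (E : M → M → Prop)

/-- `A` is the set of the reals in which `k` has rank at most `d`. -/
def IsCs (w G k d A : M) : Prop := ∀ x, E x A ↔ Real E w x ∧ Rk E w G x k d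

/-- `A` is the set of the reals in which `k` has rank `d`. -/
def IsV (w G k d A : M) : Prop := ∀ x, E x A ↔ Real E w x ∧ Rkx E w G x k d

/-- `D` is clopen. -/
def Clo (w D : M) : Prop := Open E w D ∧ ∀ D', Compl E w D' D → Open E w D'

/-- Every sequence of the model of ordinals below `κ` is bounded below `κ`. -/
def Reg (w : M) (j : Ordinal.{0} → M) (κ : Ordinal.{0}) : Prop :=
  ∀ r, Seq E w r → (∀ n : ℕ, ∃ γ < κ, Rel E r (jn j n) (j γ)) →
    ∃ δ < κ, ∀ (n : ℕ), ∀ γ < κ, Rel E r (jn j n) (j γ) → γ < δ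

/-- `κ` is the first ordinal which is not countable in the model. -/
structure IsKap (w : M) (j : Ordinal.{0} → M) (α κ : Ordinal.{0}) : Prop where
  le : κ ≤ α
  inf : Ordinal.omega0 ≤ κ
  suc : ∀ γ < κ, γ + 1 < κ
  cb : ∀ γ < κ, γ ≠ 0 → Cb E w (j γ)
  ncb : ¬ Cb E w (j κ)

end

section

variable {M : Type} (E : M → M → Prop)

open Classical in
/-- The value of the real `x` of the model at `n`. -/
noncomputable def rv (j : Ordinal.{0} → M) (x : M) (n : ℕ) : ℕ :=
  if h : ∃ m : ℕ, Rel E x (jn j n) (jn j m) then h.choose else 0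

/-- `A` is in the class `Σ⁰_β` of the hierarchy `F`. -/
def Sg (j : Ordinal.{0} → M) (F : M) (β : Ordinal.{0}) (A : M) : Prop := Rel E F (j β) A

/-- The context with a hierarchy of the classes up to `α`. -/
structure HC (w : M) (j : Ordinal.{0} → M) (α : Ordinal.{0}) (F : M) : Prop where
  cx : Cx E w j α
  hier : Hier E w (j α) F

end

end Pool.Agent.LibBU85
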