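import Pool.Agent.LibBU85.A1

/-!
BU85 H0. The hierarchy, seen from outside.

Plan. First `HC.zero`: `H.hier (j 0)`, `StepO` is false for `j 0` (`one_iff`, `gt_one_iff`). `HC.iff`:
`H.hier (j β)` (`j β = j α ∨ E (j β) (j α)` by `mem_iff`), unfold `StepO`, `one_iff`, `gt_one_iff`; the
members `d` of `j β` are the `j γ`, `γ < β` (`C.st`), `γ ≠ 0` by `HC.zero`; the indices of the sequence by
`mem_w`. `restrict`: the ordinals up to `β` are up to `α`.
`hier_uniq`: induction on `β` with `HC.iff` for both. `sigO_iff`: a hierarchy `F'` up to `j β` agrees with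
`F` up to `β` (`restrict`; `HC` for `β` needs `ω ≤ β` in `Cx`, so prove uniqueness directly by induction
for hierarchies up to `j β`, `β ≤ α`).
-/

namespace Pool.Agent.LibBU85

open Pool.Agent.LibBc83 Pool.Agent.LibBd83

variable {M : Type} {E : M → M → Prop} {w : M} {j : Ordinal.{0} → M} {α : Ordinal.{0}}

variable {F F' : M}

private theorem H0_mem (C : Cx E w j α) {β : Ordinal.{0}} (hβ : β ≤ α) {γ : Ordinal.{0}} (hγ : γ ≤ β) :
    j γ = j β ∨ E (j γ) (j β) := by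
  rcases eq_or_lt_of_le hγ with h | h
  · left
    rw [h]
  · right
    exact (C.mem_iff hβ (hγ.trans hβ)).2 h

private theorem H0_of_mem (C : Cx E w j α) {β : Ordinal.{0}} (hβ : β ≤ α) {x : M}
    (h : x = j β ∨ E x (j β)) : ∃ γ ≤ β, x = j γ := by
  rcases h with h | h
  · exact ⟨β, le_rfl, h⟩
  · obtain ⟨γ, h1, h2⟩ := (C.st β hβ x).1 h
    exact ⟨γ, h1.le, h2⟩

private theorem H0_step (C : Cx E w j α) {γ : Ordinal.{0}} (hγ : γ ≤ α) (A : M) :
    StepO E w F (j γ) A ↔ (γ = 1 ∧ Open E w A) ∨ (1 < γ ∧ ∃ g, Seq E w g ∧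
      (∀ (n : ℕ) z, Rel E g (jn j n) z →
        ∃ δ < γ, ∃ C, Rel E F (j δ) C ∧ Compl E w z C) ∧ Union E w A g) := by
  unfold StepO
  rw [C.one_iff hγ, C.gt_one_iff hγ]
  refine or_congr Iff.rfl (and_congr Iff.rfl (exists_congr fun g => and_congr Iff.rfl
    (and_congr ?_ Iff.rfl)))
  constructor
  · intro h n z hz
    obtain ⟨d, c, h1, h2, h3⟩ := h (jn j n) z (C.jn_mem n) hz
    obtain ⟨δ, hδ, rfl⟩ := (C.st γ hγ d).1 h1
    exact ⟨δ, hδ, c, h2, h3⟩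
  · intro h n z hn hz
    obtain ⟨m, rfl⟩ := C.mem_w.1 hn
    obtain ⟨δ, hδ, c, h2, h3⟩ := h m z hz
    exact ⟨j δ, c, (C.st γ hγ _).2 ⟨δ, hδ, rfl⟩, h2, h3⟩

private theorem H0_pre (C : Cx E w j α) {β : Ordinal.{0}} (hβ : β ≤ α) (h : Hier E w (j β) F)
    {γ : Ordinal.{0}} (hγ : γ ≤ β) (A : M) :
    Rel E F (j γ) A ↔ (γ = 1 ∧ Open E w A) ∨ (1 < γ ∧ ∃ g, Seq E w g ∧
      (∀ (n : ℕ) z, Rel E g (jn j n) z →
        ∃ δ < γ, ∃ C, Rel E F (j δ) C ∧ Compl E w z C) ∧ Union E w A g) := by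
  rw [h (j γ) A (H0_mem C hβ hγ), H0_step C (hγ.trans hβ)]

private theorem H0_zero (C : Cx E w j α) {β : Ordinal.{0}} (hβ : β ≤ α) (h : Hier E w (j β) F)
    (A : M) : ¬ Rel E F (j 0) A := by
  rw [H0_pre C hβ h (zero_le : (0 : Ordinal.{0}) ≤ β) A]
  rintro (⟨h1, _⟩ | ⟨h1, _⟩)
  · exact absurd h1 zero_ne_one
  · exact absurd h1 (not_lt.2 zero_le_one)

theorem HC.iff (H : HC E w j α F) {β : Ordinal.{0}} (hβ : β ≤ α) (A : M) :
    Sg E j F β A ↔ (β = 1 ∧ Open E w A) ∨ (1 < β ∧ ∃ g, Seq E w g ∧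
      (∀ (n : ℕ) z, Rel E g (jn j n) z →
        ∃ γ < β, γ ≠ 0 ∧ ∃ C, Sg E j F γ C ∧ Compl E w z C) ∧ Union E w A g) := by
  unfold Sg
  rw [H0_pre H.cx le_rfl H.hier hβ A]
  refine or_congr Iff.rfl (and_congr Iff.rfl (exists_congr fun g => and_congr Iff.rfl
    (and_congr ?_ Iff.rfl)))
  refine forall_congr' fun n => forall_congr' fun z => imp_congr Iff.rfl ?_
  constructor
  · rintro ⟨δ, hδ, c, h1, h2⟩
    refine ⟨δ, hδ, ?_, c, h1, h2⟩
    rintro rfl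
    exact H0_zero H.cx le_rfl H.hier c h1
  · rintro ⟨δ, hδ, _, c, h1, h2⟩
    exact ⟨δ, hδ, c, h1, h2⟩

theorem HC.zero (H : HC E w j α F) (A : M) : ¬ Sg E j F 0 A :=
  H0_zero H.cx le_rfl H.hier A

theorem HC.restrict (H : HC E w j α F) {β : Ordinal.{0}} (hβ : β ≤ α) : Hier E w (j β) F := by
  intro b A hb
  obtain ⟨γ, hγ, rfl⟩ := H0_of_mem H.cx hβ hb
  exact H.hier (j γ) A (H0_mem H.cx le_rfl (hγ.trans hβ))

theorem hier_uniq (C : Cx E w j α) {β : Ordinal.{0}} (hβ : β ≤ α) (h : Hier E w (j β) F)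
    (h' : Hier E w (j β) F') {γ : Ordinal.{0}} (hγ : γ ≤ β) (A : M) :
    Rel E F (j γ) A ↔ Rel E F' (j γ) A := by
  induction γ using WellFoundedLT.induction generalizing A with
  | _ γ ih =>
    rw [H0_pre C hβ h hγ A, H0_pre C hβ h' hγ A]
    refine or_congr Iff.rfl (and_congr Iff.rfl (exists_congr fun g => and_congr Iff.rfl
      (and_congr ?_ Iff.rfl)))
    refine forall_congr' fun n => forall_congr' fun z => imp_congr Iff.rfl ?_
    refine exists_congr fun δ => and_congr_right fun hδ => exists_congr fun c =>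
      and_congr_left fun _ => ?_
    exact ih δ hδ (hδ.le.trans hγ) c

theorem HC.sigO_iff (H : HC E w j α F) {β : Ordinal.{0}} (hβ : β ≤ α) {A : M} :
    SigO E (j β) w A ↔ Sg E j F β A := by
  constructor
  · rintro ⟨F', h1, h2⟩
    exact (hier_uniq H.cx hβ h1 (H.restrict hβ) le_rfl A).1 h2
  · intro h
    exact ⟨F, H.restrict hβ, h⟩

end Pool.Agent.LibBU85
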