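import Pool.Agent.LibBU85.A2

/-!
BU85 H1. Sets of reals in the model.

Plan. `all_reals`: a real is a subset of the set of the pairs of elements of `w`; a pair is a subset of
the power set of `w` (its members are unordered pairs, subsets of `w`); so each real is in the power set
of the power set of the power set of `w` (`C.zf.power` three times), and `C.zf.sep` with the formula
`Fm.real`. `sep_real`: `C.zf.sep` from this set. `compl_ex`: `sep_real`. `mk_sets`: `mk_seq` with the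
formula (in `n`, `z`): for all `x`, `x ∈ z ↔ (Real w x ∧ f (x, n, v))`; rename the variables of `f`
(`Fm.ren`, `sat_ren`, model LibBc83/T2.lean). `union_ex`: `sep_real` with the formula
`∃ n z, n ∈ w ∧ Rel g n z ∧ x ∈ z`.
-/

namespace Pool.Agent.LibBU85

open Pool.Agent.LibBc83 Pool.Agent.LibBd83

variable {M : Type} {E : M → M → Prop} {w : M} {j : Ordinal.{0} → M} {α : Ordinal.{0}}

theorem Cx.all_reals (C : Cx E w j α) : ∃ R, ∀ x, E x R ↔ Real E w x := by
  obtain ⟨P1, h1⟩ := C.zf.power w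
  obtain ⟨P2, h2⟩ := C.zf.power P1
  obtain ⟨P3, h3⟩ := C.zf.power P2
  obtain ⟨R, hR⟩ := C.zf.sep (Fm.real 1 0) (fun _ => w) P3
  refine ⟨R, fun x => ?_⟩
  rw [hR x, sat_real]
  constructor
  · intro h
    exact h.2
  · intro hx
    refine ⟨(h3 x).2 fun p hp => (h2 p).2 fun z hz => (h1 z).2 fun t ht => ?_, hx⟩
    obtain ⟨n, m, hn, hm, hop⟩ := hx.1 p hp
    rcases (hop z).1 hz with hu | hu
    · rcases (hu t).1 ht with rfl | rfl
      · exact hn
      · exact hn
    · rcases (hu t).1 ht with rfl | rfl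
      · exact hn
      · exact hm

theorem Cx.sep_real (C : Cx E w j α) (f : Fm) (v : ℕ → M) :
    ∃ A, ∀ x, E x A ↔ Real E w x ∧ Sat E f (cons x v) := by
  obtain ⟨R, hR⟩ := C.all_reals
  obtain ⟨A, hA⟩ := C.zf.sep f v R
  exact ⟨A, fun x => by rw [hA x, hR x]⟩

theorem Cx.compl_ex (C : Cx E w j α) (A : M) : ∃ A', Compl E w A' A := by
  obtain ⟨A', hA'⟩ := C.sep_real (Fm.neg (Fm.mem 0 1)) (fun _ => A)
  exact ⟨A', fun x => hA' x⟩

theorem compl_compl {A A' : M} (hA : ∀ x, E x A → Real E w x) (h : Compl E w A' A) :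
    Compl E w A A' := by
  intro x
  constructor
  · intro hx
    exact ⟨hA x hx, fun hx' => ((h x).1 hx').2 hx⟩
  · rintro ⟨hr, hx⟩
    by_contra hn
    exact hx ((h x).2 ⟨hr, hn⟩)

private def H1_rho : ℕ → ℕ
  | 0 => 0
  | 1 => 1
  | k + 2 => k + 4

private theorem H1_comp (x n z w : M) (v : ℕ → M) :
    cons x (cons n (cons z (cons w v))) ∘ H1_rho = cons x (cons n v) := by
  funext k
  match k with
  | 0 => rfl
  | 1 => rfl
  | k + 2 => rfl

/-- sequences of sets of reals defined by a formula -/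
theorem Cx.mk_sets (C : Cx E w j α) (f : Fm) (v : ℕ → M) :
    ∃ g, Seq E w g ∧ ∀ (n : ℕ) z, Rel E g (jn j n) z ↔
      ∀ x, E x z ↔ Real E w x ∧ Sat E f (cons x (cons (jn j n) v)) := by
  have key : ∀ n z, Sat E (Fm.all (Fm.iff (Fm.mem 0 2) (Fm.and (Fm.real 3 0) (f.ren H1_rho))))
      (cons n (cons z (cons w v))) ↔
      ∀ x, E x z ↔ Real E w x ∧ Sat E f (cons x (cons n v)) := by
    intro n z
    rw [sat_all]
    refine forall_congr' fun x => ?_
    rw [sat_iff, sat_and, sat_real, sat_ren, H1_comp]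
    exact Iff.rfl
  obtain ⟨g, hg, hg'⟩ := C.mk_seq
    (Fm.all (Fm.iff (Fm.mem 0 2) (Fm.and (Fm.real 3 0) (f.ren H1_rho)))) (cons w v) (by
      intro n
      obtain ⟨A, hA⟩ := C.sep_real f (cons (jn j n) v)
      refine ⟨A, fun z' => ?_⟩
      rw [key]
      constructor
      · intro h
        exact C.zf.ext z' A fun t => (h t).trans (hA t).symm
      · rintro rfl
        exact hA)
  exact ⟨g, hg, fun n z => by rw [hg' n z, key]⟩

theorem Cx.union_iff (C : Cx E w j α) {A g : M} :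
    Union E w A g ↔ ∀ x, E x A ↔ ∃ (n : ℕ) (z : M), Rel E g (jn j n) z ∧ E x z := by
  have key : ∀ x, (∃ n z, E n w ∧ Rel E g n z ∧ E x z) ↔
      ∃ (n : ℕ) (z : M), Rel E g (jn j n) z ∧ E x z := by
    intro x
    constructor
    · rintro ⟨n, z, hn, h⟩
      obtain ⟨n', rfl⟩ := C.mem_w.1 hn
      exact ⟨n', z, h⟩
    · rintro ⟨n, z, h⟩
      exact ⟨jn j n, z, C.jn_mem n, h⟩
  exact forall_congr' fun x => by rw [key x]

theorem Cx.union_ex (C : Cx E w j α) {g : M}
    (hg : ∀ (n : ℕ) z, Rel E g (jn j n) z → ∀ x, E x z → Real E w x) : ∃ A, Union E w A g := by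
  obtain ⟨A, hA⟩ := C.sep_real
    (Fm.ex (Fm.ex (Fm.and (Fm.mem 1 3) (Fm.and (Fm.rel 4 1 0) (Fm.mem 2 0))))) (cons w (cons g fun _ => w))
  have key : ∀ x, Sat E (Fm.ex (Fm.ex (Fm.and (Fm.mem 1 3) (Fm.and (Fm.rel 4 1 0) (Fm.mem 2 0)))))
      (cons x (cons w (cons g fun _ => w))) ↔ ∃ n z, E n w ∧ Rel E g n z ∧ E x z := by
    intro x
    rw [sat_ex]
    refine exists_congr fun n => ?_
    rw [sat_ex]
    refine exists_congr fun z => ?_
    rw [sat_and, sat_and, sat_rel]
    exact Iff.rfl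
  refine ⟨A, fun x => ?_⟩
  rw [hA x, key x]
  constructor
  · intro h
    exact h.2
  · rintro ⟨n, z, hn, hz, hx⟩
    refine ⟨?_, n, z, hn, hz, hx⟩
    obtain ⟨n', rfl⟩ := C.mem_w.1 hn
    exact hg n' z hz x hx

end Pool.Agent.LibBU85
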