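import Pool.Agent.LibBU85.H0
import Pool.Agent.LibBU85.H1

/-!
BU85 H2. The classes consist of sets of reals and increase.

Plan. `real`: induction on `β` is not needed: for `β = 1` by `Open`, for `β > 1` each member of `A` is in a
complement. `open_two`: an open set `U` is the union of the sequence of the sets
`U_n = {x : all reals y which agree with x below n are in U}` (`mk_sets`), which are complements of open
sets (both `U_n` and its complement are open: if `y` agrees with `x` below `n` then `y ∈ U_n ↔ x ∈ U_n`).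
`mono`: for `2 ≤ β ≤ γ` the same sequence (`HC.iff`); for `β = 1 < γ` first `open_two`.
`compl_sig`: the constant sequence with value `A` (`mk_seq` with the formula `z = A`).
-/

namespace Pool.Agent.LibBU85

open Pool.Agent.LibBc83 Pool.Agent.LibBd83

variable {M : Type} {E : M → M → Prop} {w : M} {j : Ordinal.{0} → M} {α : Ordinal.{0}}

variable {F : M}

theorem HC.real (H : HC E w j α F) {β : Ordinal.{0}} (hβ : β ≤ α) {A : M} (hA : Sg E j F β A) :
    ∀ x, E x A → Real E w x := by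
  intro x hx
  rcases (H.iff hβ A).1 hA with ⟨_, hO⟩ | ⟨_, g, _, hg, hU⟩
  · exact hO.1 x hx
  · obtain ⟨n, z, hz, hxz⟩ := (H.cx.union_iff).1 hU x |>.1 hx
    obtain ⟨γ, _, _, C, _, hC⟩ := hg n z hz
    exact ((hC x).1 hxz).1

private theorem H2_open (H : HC E w j α F) {γ : Ordinal.{0}} (h : 1 < γ) (hγ : γ ≤ α) {U : M}
    (hU : Open E w U) : Sg E j F γ U := by
  have C := H.cx
  obtain ⟨g, hg, hgz⟩ := C.mk_sets
    (Fm.all (Fm.imp (Fm.real 3 0) (Fm.imp (Fm.agr 2 1 0) (Fm.mem 0 4)))) (cons w (cons U fun _ => w))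
  have key : ∀ (n : ℕ) z, Rel E g (jn j n) z ↔
      ∀ x, E x z ↔ Real E w x ∧ ∀ y, Real E w y → Agr E (jn j n) x y → E y U := by
    intro n z
    rw [hgz]
    simp
  refine (H.iff hγ U).2 (Or.inr ⟨h, g, hg, ?_, ?_⟩)
  · intro n z hz
    have hz' := (key n z).1 hz
    obtain ⟨D, hD⟩ := C.compl_ex z
    refine ⟨1, h, one_ne_zero, D, ?_, compl_compl (fun x hx => ((hz' x).1 hx).1) hD⟩
    refine (H.iff (h.le.trans hγ) D).2 (Or.inl ⟨rfl, fun x hx => ((hD x).1 hx).1, fun x hx => ?_⟩)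
    refine ⟨jn j n, C.jn_mem n, fun y hy hxy => (hD y).2 ⟨hy, fun hyz => ?_⟩⟩
    refine ((hD x).1 hx).2 ((hz' x).2 ⟨((hD x).1 hx).1, fun y' hy' hxy' => ?_⟩)
    exact ((hz' y).1 hyz).2 y' hy' fun i hi m => (hxy i hi m).symm.trans (hxy' i hi m)
  · rw [C.union_iff]
    intro x
    constructor
    · intro hx
      obtain ⟨n, hn, hnU⟩ := hU.2 x hx
      obtain ⟨k, rfl⟩ := C.mem_w.1 hn
      obtain ⟨z, hz⟩ := C.seq_val hg k
      have hz1 := (hz z).2 rfl
      exact ⟨k, z, hz1, ((key k z).1 hz1 x).2 ⟨hU.1 x hx, hnU⟩⟩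
    · rintro ⟨n, z, hz, hxz⟩
      obtain ⟨hr, hx⟩ := ((key n z).1 hz x).1 hxz
      exact hx x hr fun _ _ _ => Iff.rfl

theorem HC.mono (H : HC E w j α F) {β γ : Ordinal.{0}} (h : β ≤ γ) (hγ : γ ≤ α) {A : M}
    (hA : Sg E j F β A) : Sg E j F γ A := by
  rcases (H.iff (h.trans hγ) A).1 hA with ⟨h1, hO⟩ | ⟨h1, g, hg, hgz, hU⟩
  · rcases eq_or_lt_of_le h with h2 | h2
    · rw [← h2]
      exact hA
    · rw [h1] at h2
      exact H2_open H h2 hγ hO
  · refine (H.iff hγ A).2 (Or.inr ⟨h1.trans_le h, g, hg, fun n z hz => ?_, hU⟩)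
    obtain ⟨δ, hδ, h0, C, hC, hzC⟩ := hgz n z hz
    exact ⟨δ, hδ.trans_le h, h0, C, hC, hzC⟩

theorem HC.compl_sig (H : HC E w j α F) {β γ : Ordinal.{0}} (h : β < γ) (hγ : γ ≤ α) {A C : M}
    (hC : Sg E j F β C) (hA : Compl E w A C) : Sg E j F γ A := by
  have h0 : β ≠ 0 := by
    rintro rfl
    exact H.zero C hC
  have h1 : 1 < γ := (Order.one_le_iff_pos.2 (pos_iff_ne_zero.2 h0)).trans_lt h
  obtain ⟨g, hg, hgz⟩ := H.cx.mk_seq (Fm.eq 1 2) (cons A fun _ => A) fun n => ⟨A, fun z' => Iff.rfl⟩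
  have key : ∀ (n : ℕ) z, Rel E g (jn j n) z ↔ z = A := fun n z => (hgz n z).trans Iff.rfl
  refine (H.iff hγ A).2 (Or.inr ⟨h1, g, hg, fun n z hz => ?_, ?_⟩)
  · rw [key] at hz
    subst hz
    exact ⟨β, h, h0, C, hC, hA⟩
  · rw [H.cx.union_iff]
    intro x
    constructor
    · intro hx
      exact ⟨0, A, (key 0 A).2 rfl, hx⟩
    · rintro ⟨n, z, hz, hxz⟩
      rw [key] at hz
      subst hz
      exact hxz

end Pool.Agent.LibBU85
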