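import Pool.Agent.LibBU85.H4

/-!
BU85 H5. The sets `n⌢A`.

Plan. Induction on `β` (strong, for all `A`, `B`), with `prep_iff` (A2), `prep_ex`, `prep_uniq` (U4).
`β = 1`: if `z = n⌢x`, `x ∈ A` and all reals which agree with `x` below `m` are in `A`, then all reals `z'`
which agree with `z` below `m + 1` are `n⌢x'` with such `x'` (each real `z'` with `rv z' 0 = n` is `n⌢x'`
for a real `x'`: `exists_real` with the formula `∃ l', Suc l' l ∧ Rel z' l' m`). `β > 1`: `A` is the union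
of `g`, `B` is the union of the sequence of the sets `n⌢g (i)` (`mk_sets` with
`∃ y x', Rel g i y ∧ x' ∈ y ∧ Prep w n x' x`, formula `Fm'.prp`); if `g (i)` is the complement of `C` then
`n⌢g (i)` is the complement of `(n⌢C) ∪ D`, `D = {z : rv z 0 ≠ n}` clopen (`clo_coord`,
`HC.union_clo`).
-/

namespace Pool.Agent.LibBU85

open Pool.Agent.LibBc83 Pool.Agent.LibBd83

variable {M : Type} {E : M → M → Prop} {w : M} {j : Ordinal.{0} → M} {α : Ordinal.{0}}

variable {F : M}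

private theorem H5_tail (C : Cx E w j α) {z : M} (hz : Real E w z) :
    ∃ x, Real E w x ∧ ∀ l, rv E j x l = rv E j z (l + 1) := by
  refine C.exists_real (.ex (.and (.suc 0 1) (.rel 3 0 2))) (cons z fun _ => w)
    (fun l => rv E j z (l + 1)) ?_
  intro l m
  simp only [sat_ex, sat_and, sat_suc, sat_rel, cons_zero, cons_succ]
  constructor
  · rintro ⟨l', h1, h2⟩
    have e : l' = jn j (l + 1) := suc_uniq C.zf h1 (C.jn_suc l)
    rw [e] at h2
    exact (C.rel_rv hz (l + 1) m).1 h2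
  · intro h
    exact ⟨jn j (l + 1), C.jn_suc l, (C.rel_rv hz (l + 1) m).2 h⟩

private theorem H5_prep (C : Cx E w j α) {n : ℕ} {z : M} (hz : Real E w z) (h0 : rv E j z 0 = n) :
    ∃ x, Real E w x ∧ Prep E w (jn j n) x z ∧ ∀ l, rv E j x l = rv E j z (l + 1) := by
  obtain ⟨x, hx, h⟩ := H5_tail C hz
  exact ⟨x, hx, (C.prep_iff hx hz).2 ⟨h0, fun l => (h l).symm⟩, h⟩

private theorem H5_open (C : Cx E w j α) (n : ℕ) {A B : M} (hA : Open E w A)
    (hB : ∀ z, E z B ↔ ∃ x, E x A ∧ Prep E w (jn j n) x z) : Open E w B := by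
  refine ⟨?_, ?_⟩
  · intro z hz
    obtain ⟨x, -, h⟩ := (hB z).1 hz
    exact h.1
  · intro z hz
    obtain ⟨x, hx, h⟩ := (hB z).1 hz
    have hxr := hA.1 x hx
    obtain ⟨h0, h1⟩ := (C.prep_iff hxr h.1).1 h
    obtain ⟨m, hm, hm2⟩ := hA.2 x hx
    obtain ⟨k, rfl⟩ := C.mem_w.1 hm
    refine ⟨jn j (k + 1), C.jn_mem _, ?_⟩
    intro y hy hay
    have hay' := (C.agr_iff h.1 hy (k + 1)).1 hay
    have hy0 : rv E j y 0 = n := by rw [← hay' 0 (Nat.succ_pos k), h0]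
    obtain ⟨x', hx', hp, hl⟩ := H5_prep C hy hy0
    refine (hB y).2 ⟨x', ?_, hp⟩
    refine hm2 x' hx' ((C.agr_iff hxr hx' k).2 ?_)
    intro i hi
    rw [hl i, ← hay' (i + 1) (Nat.succ_lt_succ hi), h1 i]

private theorem H5_term (H : HC E w j α F) {γ : Ordinal.{0}} (hγ : γ ≤ α) (n : ℕ)
    (ih : ∀ A B : M, Sg E j F γ A → (∀ z, E z B ↔ ∃ x, E x A ∧ Prep E w (jn j n) x z) → Sg E j F γ B)
    {y C z : M} (hC : Sg E j F γ C) (hy : Compl E w y C)
    (hz : ∀ x, E x z ↔ Real E w x ∧ ∃ x', E x' y ∧ Prep E w (jn j n) x' x) :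
    ∃ C', Sg E j F γ C' ∧ Compl E w z C' := by
  have K := H.cx
  obtain ⟨B1, hB1⟩ := K.sep_real (.ex (.and (.mem 0 2) (Fm'.prp 3 4 0 1)))
    (cons C (cons w (cons (jn j n) fun _ => w)))
  simp only [sat_ex, sat_and, sat_mem, sat_prp, cons_zero, cons_succ] at hB1
  have hB1' : ∀ x, E x B1 ↔ ∃ x', E x' C ∧ Prep E w (jn j n) x' x := by
    intro x
    rw [hB1]
    exact ⟨fun h => h.2, fun h => ⟨h.choose_spec.2.1, h⟩⟩
  have hSB1 : Sg E j F γ B1 := ih C B1 hC hB1'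
  obtain ⟨D, hD⟩ := K.sep_real (.neg (.rel 0 1 2)) (cons (jn j 0) (cons (jn j n) fun _ => w))
  simp only [sat_neg, sat_rel, cons_zero, cons_succ] at hD
  have hD' : ∀ x, E x D ↔ Real E w x ∧ rv E j x 0 ≠ n := by
    intro x
    rw [hD]
    refine and_congr_right fun hx => ?_
    rw [K.rel_rv hx 0, K.jn_inj]
    exact ⟨fun h h' => h h'.symm, fun h h' => h h'.symm⟩
  have hDc : Clo E w D := K.clo_coord 0 (fun k => k ≠ n) hD'
  obtain ⟨C', hC'⟩ := K.sep_real (.or (.mem 0 1) (.mem 0 2)) (cons B1 (cons D fun _ => w))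
  simp only [sat_or, sat_mem, cons_zero, cons_succ] at hC'
  have hC2 : ∀ x, E x C' ↔ E x B1 ∨ E x D := by
    intro x
    rw [hC']
    refine ⟨fun h => h.2, fun h => ⟨?_, h⟩⟩
    rcases h with h | h
    · exact ((hB1 x).1 h).1
    · exact ((hD' x).1 h).1
  refine ⟨C', H.union_clo hγ hSB1 hDc hC2, ?_⟩
  intro x
  rw [hz x]
  refine and_congr_right fun hx => ?_
  rw [hC2, not_or, hB1', hD']
  constructor
  · rintro ⟨x', hx', hp⟩
    have hx'2 := (hy x').1 hx'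
    refine ⟨?_, ?_⟩
    · rintro ⟨x'', hx'', hp'⟩
      have e := prep_uniq K.zf K.om hx'2.1 (H.real hγ hC x'' hx'') hp hp'
      rw [← e] at hx''
      exact hx'2.2 hx''
    · rintro ⟨-, h0⟩
      exact h0 ((K.prep_iff hx'2.1 hx).1 hp).1
  · rintro ⟨h1, h2⟩
    have h0 : rv E j x 0 = n := by
      by_contra h
      exact h2 ⟨hx, h⟩
    obtain ⟨x', hx', hp, -⟩ := H5_prep K hx h0
    exact ⟨x', (hy x').2 ⟨hx', fun hc => h1 ⟨x', hc, hp⟩⟩, hp⟩

theorem HC.pre (H : HC E w j α F) {β : Ordinal.{0}} (hβ : β ≤ α) (n : ℕ) {A B : M}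
    (hA : Sg E j F β A) (hB : ∀ z, E z B ↔ ∃ x, E x A ∧ Prep E w (jn j n) x z) :
    Sg E j F β B := by
  have K := H.cx
  induction β using WellFoundedLT.induction generalizing A B with
  | ind β ih =>
    rcases (H.iff hβ A).1 hA with ⟨h1, hO⟩ | ⟨h1, g, hg, hg2, hU⟩
    · exact (H.iff hβ B).2 (Or.inl ⟨h1, H5_open K n hO hB⟩)
    · obtain ⟨g', hg', hg'2⟩ := K.mk_sets (.ex (.ex (.and (.rel 5 3 1) (.and (.mem 0 1) (Fm'.prp 4 6 0 2)))))
        (cons w (cons g (cons (jn j n) fun _ => w)))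
      simp only [sat_ex, sat_and, sat_rel, sat_mem, sat_prp, cons_zero, cons_succ] at hg'2
      refine (H.iff hβ B).2 (Or.inr ⟨h1, g', hg', ?_, ?_⟩)
      · intro i z hz
        obtain ⟨y, hy⟩ := K.seq_val hg i
        have hyy : Rel E g (jn j i) y := (hy y).2 rfl
        obtain ⟨γ, hγ, hγ0, D, hD, hyD⟩ := hg2 i y hyy
        refine ⟨γ, hγ, hγ0, ?_⟩
        refine H5_term H (hγ.le.trans hβ) n (fun A B hA hB => ih γ hγ (hγ.le.trans hβ) hA hB) hD hyD ?_
        intro x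
        rw [(hg'2 i z).1 hz x]
        refine and_congr_right fun _ => ?_
        constructor
        · rintro ⟨y', x', h3, h4, h5⟩
          rw [(hy y').1 h3] at h4
          exact ⟨x', h4, h5⟩
        · rintro ⟨x', h4, h5⟩
          exact ⟨y, x', hyy, h4, h5⟩
      · rw [K.union_iff]
        have hU' := K.union_iff.1 hU
        intro z
        rw [hB]
        constructor
        · rintro ⟨x, hx, hp⟩
          obtain ⟨i, y, h2, h3⟩ := (hU' x).1 hx
          obtain ⟨z', hz'⟩ := K.seq_val hg' i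
          have hzz : Rel E g' (jn j i) z' := (hz' z').2 rfl
          refine ⟨i, z', hzz, ((hg'2 i z').1 hzz z).2 ⟨hp.1, y, x, h2, h3, hp⟩⟩
        · rintro ⟨i, z', hz', hz⟩
          obtain ⟨-, y, x, h2, h3, hp⟩ := ((hg'2 i z').1 hz' z).1 hz
          exact ⟨x, (hU' x).2 ⟨i, y, h2, h3⟩, hp⟩

end Pool.Agent.LibBU85
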