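import Pool.Agent.LibBU85.H0
import Pool.Agent.LibBU85.H1

/-!
BU85 S1a. The least ranks of the terms of a sequence form a sequence of the model.

Plan. For each `n` let `γ` be the least ordinal, `0 < γ < κ`, such that the term `z` of `g` at `n` is the
complement of a set in `Σ⁰_γ`. `mk_seq` with the formula in `n`, `b`: `b ∈ j κ`, `b` not empty, there are
`z`, `C` with `Rel g n z`, `Rel F b C`, `Compl w z C`, and for no `c ∈ b`, `c` not empty, there are `z'`,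
`C'` with `Rel g n z'`, `Rel F c C'`, `Compl w z' C'`. The members of `j κ` are the `j γ`, `γ < κ` (`C.st`),
`¬ Emp E (j γ) ↔ γ ≠ 0`. Uniqueness: two such `γ` are equal by minimality (`lt_trichotomy`).
-/

namespace Pool.Agent.LibBU85

open Pool.Agent.LibBc83 Pool.Agent.LibBd83

variable {M : Type} {E : M → M → Prop} {w : M} {j : Ordinal.{0} → M} {α : Ordinal.{0}}

variable {F : M}

/-- the formula `∃ z C, Rel g n z ∧ Rel F b C ∧ Compl w z C` -/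
private def S1a_Q (n b g F w : ℕ) : Fm :=
  .ex (.ex (.and (.rel (g+2) (n+2) 1) (.and (.rel (F+2) (b+2) 0) (.compl (w+2) 1 0))))

private def S1a_f : Fm :=
  .and (.mem 1 2) (.and (.neg (.emp 1)) (.and (S1a_Q 0 1 3 4 5)
    (.all (.imp (.mem 0 2) (.imp (.neg (.emp 0)) (.neg (S1a_Q 1 0 4 5 6)))))))

private theorem S1a_sat (n b k g F w : M) :
    Sat E S1a_f (cons n (cons b (cons k (cons g (cons F fun _ => w))))) ↔
      E b k ∧ ¬ Emp E b ∧ (∃ z C, Rel E g n z ∧ Rel E F b C ∧ Compl E w z C) ∧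
        ∀ c, E c b → ¬ Emp E c → ¬ ∃ z C, Rel E g n z ∧ Rel E F c C ∧ Compl E w z C := by
  simp only [S1a_f, S1a_Q, sat_and, sat_mem, sat_neg, sat_emp, sat_ex, sat_rel, sat_compl, sat_all, sat_imp,
    cons_zero, cons_succ]

theorem least_rank (H : HC E w j α F) {κ : Ordinal.{0}} (hκ : κ ≤ α) {g : M} (hg : Seq E w g)
    (h : ∀ (n : ℕ) z, Rel E g (jn j n) z →
      ∃ γ < κ, γ ≠ 0 ∧ ∃ C, Sg E j F γ C ∧ Compl E w z C) :
    ∃ r, Seq E w r ∧ ∀ n : ℕ, ∃ γ < κ, γ ≠ 0 ∧ Rel E r (jn j n) (j γ) ∧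
      ∀ z, Rel E g (jn j n) z → ∃ C, Sg E j F γ C ∧ Compl E w z C := by
  have C := H.cx
  have hmin : ∀ n : ℕ, ∃ γ : Ordinal.{0}, (γ < κ ∧ γ ≠ 0 ∧
      ∃ z D, Rel E g (jn j n) z ∧ Rel E F (j γ) D ∧ Compl E w z D) ∧
      ∀ δ : Ordinal.{0}, δ < γ → ¬ (δ < κ ∧ δ ≠ 0 ∧
        ∃ z D, Rel E g (jn j n) z ∧ Rel E F (j δ) D ∧ Compl E w z D) := by
    intro n
    obtain ⟨z, hz⟩ := C.seq_val hg n
    have hzz : Rel E g (jn j n) z := (hz z).2 rfl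
    obtain ⟨γ, h1, h2, D, h3, h4⟩ := h n z hzz
    have hne : {γ : Ordinal.{0} | γ < κ ∧ γ ≠ 0 ∧
      ∃ z D, Rel E g (jn j n) z ∧ Rel E F (j γ) D ∧ Compl E w z D}.Nonempty :=
      ⟨γ, h1, h2, z, D, hzz, h3, h4⟩
    obtain ⟨δ, h5, h6⟩ := WellFounded.has_min (wellFounded_lt (α := Ordinal.{0})) _ hne
    exact ⟨δ, h5, fun ε hε hc => h6 ε hc hε⟩
  choose G hG1 hG2 using hmin
  obtain ⟨r, hr1, hr2⟩ := C.mk_seq S1a_f (cons (j κ) (cons g (cons F fun _ => w))) (by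
    intro n
    refine ⟨j (G n), fun b => ?_⟩
    rw [S1a_sat]
    constructor
    · rintro ⟨hb1, hb2, hb3, hb4⟩
      obtain ⟨γ, hγ, rfl⟩ := (C.st κ hκ b).1 hb1
      have hγ0 : γ ≠ 0 := fun h0 => hb2 ((C.emp_iff (hγ.le.trans hκ)).2 h0)
      rcases lt_trichotomy γ (G n) with h1 | h1 | h1
      · exact absurd ⟨hγ, hγ0, hb3⟩ (hG2 n γ h1)
      · rw [h1]
      · exfalso
        refine hb4 (j (G n)) ((C.mem_iff (hγ.le.trans hκ) ((hG1 n).1.le.trans hκ)).2 h1) ?_ (hG1 n).2.2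
        exact fun h0 => (hG1 n).2.1 ((C.emp_iff ((hG1 n).1.le.trans hκ)).1 h0)
    · intro hb
      subst hb
      refine ⟨(C.mem_iff hκ ((hG1 n).1.le.trans hκ)).2 (hG1 n).1,
        fun h0 => (hG1 n).2.1 ((C.emp_iff ((hG1 n).1.le.trans hκ)).1 h0), (hG1 n).2.2, ?_⟩
      intro c hc hc0 hc1
      obtain ⟨δ, hδ, rfl⟩ := (C.st (G n) ((hG1 n).1.le.trans hκ) c).1 hc
      have hδ0 : δ ≠ 0 := fun h0 => hc0 ((C.emp_iff ((hδ.trans (hG1 n).1).le.trans hκ)).2 h0)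
      exact hG2 n δ hδ ⟨hδ.trans (hG1 n).1, hδ0, hc1⟩)
  refine ⟨r, hr1, fun n => ⟨G n, (hG1 n).1, (hG1 n).2.1, ?_, ?_⟩⟩
  · rw [hr2, S1a_sat]
    refine ⟨(C.mem_iff hκ ((hG1 n).1.le.trans hκ)).2 (hG1 n).1,
      fun h0 => (hG1 n).2.1 ((C.emp_iff ((hG1 n).1.le.trans hκ)).1 h0), (hG1 n).2.2, ?_⟩
    intro c hc hc0 hc1
    obtain ⟨δ, hδ, rfl⟩ := (C.st (G n) ((hG1 n).1.le.trans hκ) c).1 hc
    have hδ0 : δ ≠ 0 := fun h0 => hc0 ((C.emp_iff ((hδ.trans (hG1 n).1).le.trans hκ)).2 h0)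
    exact hG2 n δ hδ ⟨hδ.trans (hG1 n).1, hδ0, hc1⟩
  · intro z hz
    obtain ⟨z', D, h1, h2, h3⟩ := (hG1 n).2.2
    obtain ⟨y, hy⟩ := C.seq_val hg n
    have e1 : z = z' := ((hy z).1 hz).trans ((hy z').1 h1).symm
    rw [e1]
    exact ⟨D, h2, h3⟩

end Pool.Agent.LibBU85
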