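import Pool.Agent.LibBU85.S1a
import Pool.Agent.LibBU85.H2

/-!
BU85 S1b. If `κ` is regular for the sequences of the model then the classes do not grow from `κ` on.

Plan. Strong induction on `γ`. If `γ < κ` take `β = γ` (`γ ≠ 0` by `HC.zero`). Otherwise `1 < γ` and by
`HC.iff` `A` is the union of `g`, `g (n)` the complement of `C` in `Σ⁰_γ'`, `γ' < γ`; by induction `C` is in
`Σ⁰_β'` for some `β' < κ`, `β' ≠ 0`. `least_rank` and `Reg` give `r` and `δ < κ` with all ranks below `δ`;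
then `A` is in `Σ⁰_(max δ 2)` by `HC.iff`, and `max δ 2 < κ` (`ω ≤ κ`).
-/

namespace Pool.Agent.LibBU85

open Pool.Agent.LibBc83 Pool.Agent.LibBd83

variable {M : Type} {E : M → M → Prop} {w : M} {j : Ordinal.{0} → M} {α : Ordinal.{0}}

variable {F : M}

theorem HC.stab (H : HC E w j α F) {κ : Ordinal.{0}} (hκ : κ ≤ α) (hω : Ordinal.omega0 ≤ κ)
    (hr : Reg E w j κ) {γ : Ordinal.{0}} (hγ : γ ≤ α) {A : M} (hA : Sg E j F γ A) :
    ∃ β < κ, β ≠ 0 ∧ Sg E j F β A := by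
  induction γ using WellFoundedLT.induction generalizing A with
  | _ γ ih =>
    by_cases hlt : γ < κ
    · refine ⟨γ, hlt, ?_, hA⟩
      rintro rfl
      exact H.zero A hA
    · have hκγ : κ ≤ γ := not_lt.1 hlt
      have h1 : (1 : Ordinal.{0}) < γ := lt_of_lt_of_le Ordinal.one_lt_omega0 (hω.trans hκγ)
      rcases (H.iff hγ A).1 hA with ⟨h2, _⟩ | ⟨_, g, hg, hgt, hU⟩
      · exact absurd h2 h1.ne'
      · obtain ⟨r, hrs, hrv⟩ := least_rank H hκ hg (fun n z hz => by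
          obtain ⟨γ', hγ', _, C, hC, hCo⟩ := hgt n z hz
          obtain ⟨β', hβ', hβ0, hC'⟩ := ih γ' hγ' (hγ'.le.trans hγ) hC
          exact ⟨β', hβ', hβ0, C, hC', hCo⟩)
        obtain ⟨δ, hδ, hb⟩ := hr r hrs (fun n => by
          obtain ⟨γ', h3, _, h4, _⟩ := hrv n
          exact ⟨γ', h3, h4⟩)
        have h2κ : (2 : Ordinal.{0}) < κ :=
          lt_of_lt_of_le (by exact_mod_cast Ordinal.natCast_lt_omega0 2) hω
        have hm : max δ 2 < κ := max_lt hδ h2κ
        have h1m : (1 : Ordinal.{0}) < max δ 2 := lt_of_lt_of_le one_lt_two (le_max_right _ _)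
        refine ⟨max δ 2, hm, (zero_lt_one.trans h1m).ne', ?_⟩
        rw [H.iff (hm.le.trans hκ)]
        refine Or.inr ⟨h1m, g, hg, fun n z hz => ?_, hU⟩
        obtain ⟨γ', h3, h4, h5, h6⟩ := hrv n
        exact ⟨γ', lt_of_lt_of_le (hb n γ' h3 h5) (le_max_left _ _), h4, h6 z hz⟩

end Pool.Agent.LibBU85
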