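import Pool.Agent.LibBU85.D1
import Pool.Agent.LibBU85.S1b
import Pool.Agent.LibBU85.A3b

/-!
BU85 Z (assembly, helper85). If the ordinal `α` is not countable in the model then the choice principle
for `Σ⁰_α` implies the one for `Σ⁰_(α+1)`.
-/

namespace Pool.Agent.LibBU85

open Pool.Agent.LibBc83 Pool.Agent.LibBd83

variable {M : Type} {E : M → M → Prop} {w : M} {j : Ordinal.{0} → M} {α : Ordinal.{0}}

private theorem Z_cls (hZ : IsZF E) (hw : Om E w) (hω : Ordinal.omega0 ≤ α)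
    (hj : St E j (α + 1)) (hn : ¬ Cb E w (j α))
    (hreg : ∀ F G, HC E w j α F → IsG E w j G → ∀ κ, IsKap E w j α κ → Reg E w j κ) {A : M}
    (hA : SigO E (j (α + 1)) w A) : SigO E (j α) w A := by
  have hle : α ≤ α + 1 := le_self_add
  obtain ⟨F, hF, hFA⟩ := hA
  have C : Cx E w j α := ⟨hZ, hw, fun β hβ => hj β (hβ.trans hle), hω⟩
  have C' : Cx E w j (α + 1) := ⟨hZ, hw, hj, hω.trans hle⟩
  have H' : HC E w j (α + 1) F := ⟨C', hF⟩
  have H : HC E w j α F := ⟨C, H'.restrict hle⟩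
  obtain ⟨G, hG⟩ := exists_G C
  obtain ⟨κ, hκ⟩ := exists_kap C hn
  have hr := hreg F G H hG κ hκ
  obtain ⟨β, hβ, -, hB⟩ := H'.stab (hκ.le.trans hle) hκ.inf hr le_rfl hFA
  have h1 : Sg E j F α A := H.mono (hβ.le.trans hκ.le) le_rfl hB
  exact (H.sigO_iff le_rfl).2 h1

/-- If `α` is not countable in the model then `AC_ω(ℝ; Σ⁰_α)` implies `AC_ω(ℝ; Σ⁰_(α+1))`. -/
theorem neg_acr (hZ : IsZF E) (hw : Om E w) (hω : Ordinal.omega0 ≤ α) (hj : St E j (α + 1))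
    (hn : ¬ Cb E w (j α)) (hA : ACRo E (j α)) : ACRo E (j (α + 1)) := by
  intro w' s hw' hs hne hcl
  obtain rfl := om_uniq hZ hw hw'
  refine hA w s hw hs hne fun n A hn' hA' => ?_
  exact Z_cls hZ hw hω hj hn (fun F G H hG κ hκ => reg_acr H hG hκ hA) (hcl n A hn' hA')

/-- If `α` is not countable in the model then `AC_ω(ℝ; unif Σ⁰_α)` implies
`AC_ω(ℝ; unif Σ⁰_(α+1))`. -/
theorem neg_acu (hZ : IsZF E) (hw : Om E w) (hω : Ordinal.omega0 ≤ α) (hj : St E j (α + 1))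
    (hn : ¬ Cb E w (j α)) (hA : ACUo E (j α)) : ACUo E (j (α + 1)) := by
  intro w' s hw' hs hne hcl
  obtain rfl := om_uniq hZ hw hw'
  have key : ∀ A, SigO E (j (α + 1)) w A → SigO E (j α) w A := fun A hA' =>
    Z_cls hZ hw hω hj hn (fun F G H hG κ hκ => reg_acu H hG hκ hA) hA'
  obtain ⟨h1, a, ha, ha'⟩ := hcl
  exact hA w s hw hs hne ⟨fun n A hn' hA' => key A (h1 n A hn' hA'), a, ha, key a ha'⟩

/-! ### The forms for the ordinal `a` of the model -/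

/-- From `IsoOrd` to a standard map. -/
theorem exists_j {a a' : M} (ha : IsoOrd E α a) (ha' : Suc E a' a) :
    ∃ j : Ordinal.{0} → M, St E j (α + 1) ∧ j α = a ∧ j (α + 1) = a' := by
  classical
  obtain ⟨ht, f, hf, hlt⟩ := ha
  have hαα : α < α + 1 := Order.lt_add_one_iff.2 le_rfl
  obtain ⟨j, h1, h2, h3⟩ : ∃ j : Ordinal.{0} → M, (∀ γ (h : γ ∈ Set.Iio α), j γ = f ⟨γ, h⟩) ∧
      j α = a ∧ j (α + 1) = a' := by
    refine ⟨fun β => if h : β ∈ Set.Iio α then f ⟨β, h⟩ else if β = α then a else a', ?_, ?_, ?_⟩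
    · intro γ h
      exact dif_pos h
    · exact (dif_neg (lt_irrefl α : α ∉ Set.Iio α)).trans (if_pos rfl)
    · exact (dif_neg (not_lt.2 hαα.le : α + 1 ∉ Set.Iio α)).trans (if_neg hαα.ne')
  refine ⟨j, fun β hβ x => ?_, h2, h3⟩
  have ha : ∀ x, E x a ↔ ∃ γ < α, x = j γ := by
    intro x
    rw [hf x]
    constructor
    · rintro ⟨γ, rfl⟩
      exact ⟨γ, γ.2, (h1 γ γ.2).symm⟩
    · rintro ⟨γ, hγ, rfl⟩
      exact ⟨⟨γ, hγ⟩, (h1 γ hγ).symm⟩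
  rcases lt_trichotomy β α with h | rfl | h
  · rw [h1 β h]
    constructor
    · intro hx
      obtain ⟨γ, rfl⟩ := (hf x).1 (ht _ _ hx ((hf _).2 ⟨_, rfl⟩))
      exact ⟨γ, (hlt _ _).1 hx, (h1 γ γ.2).symm⟩
    · rintro ⟨γ, hγ, rfl⟩
      rw [h1 γ (lt_trans hγ h)]
      exact (hlt _ _).2 hγ
  · rw [h2]
    exact ha x
  · obtain rfl : β = α + 1 := le_antisymm hβ (Order.add_one_le_of_lt h)
    rw [h3, ha' x, ha x]
    constructor
    · rintro (⟨γ, hγ, rfl⟩ | rfl)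
      · exact ⟨γ, hγ.trans h, rfl⟩
      · exact ⟨α, h, h2.symm⟩
    · rintro ⟨γ, hγ, rfl⟩
      rcases (Order.lt_add_one_iff.1 hγ).lt_or_eq with h5 | rfl
      · exact Or.inl ⟨γ, h5, rfl⟩
      · exact Or.inr h2

private theorem Z_inf (hα : ¬ (Set.Iio α).Countable) : Ordinal.omega0 ≤ α := by
  by_contra h
  obtain ⟨n, rfl⟩ := Ordinal.lt_omega0.1 (not_le.1 h)
  refine hα ((Set.countable_range (fun k : ℕ => (k : Ordinal.{0}))).mono ?_)
  intro γ hγ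
  obtain ⟨k, rfl⟩ := Ordinal.lt_omega0.1 (lt_trans hγ (Ordinal.nat_lt_omega0 n))
  exact ⟨k, rfl⟩

/-- In a model of ZF in which the ordinal `α` is not countable, `AC_ω(ℝ; Σ⁰_α)` implies
`AC_ω(ℝ; Σ⁰_(α+1))`. -/
theorem neg_one' (h : IsZF E) (hω : Ordinal.omega0 ≤ α) {a a' : M} (ha : IsoOrd E α a)
    (ha' : Suc E a' a) (hw : Om E w)
    (hn : ¬ ∃ g, Seq E w g ∧ ∀ x, E x a → ∃ n, E n w ∧ Rel E g n x) (hA : ACRo E a) :
    ACRo E a' := by
  obtain ⟨j, hj, rfl, rfl⟩ := exists_j ha ha'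
  refine neg_acr h hw hω hj ?_ hA
  rintro ⟨f, hf, hf'⟩
  exact hn ⟨f, hf, fun x hx => (hf' x).1 hx⟩

theorem neg_two' (h : IsZF E) (hω : Ordinal.omega0 ≤ α) {a a' : M} (ha : IsoOrd E α a)
    (ha' : Suc E a' a) (hw : Om E w)
    (hn : ¬ ∃ g, Seq E w g ∧ ∀ x, E x a → ∃ n, E n w ∧ Rel E g n x) (hA : ACUo E a) :
    ACUo E a' := by
  obtain ⟨j, hj, rfl, rfl⟩ := exists_j ha ha'
  refine neg_acu h hw hω hj ?_ hA
  rintro ⟨f, hf, hf'⟩
  exact hn ⟨f, hf, fun x hx => (hf' x).1 hx⟩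

theorem neg_one (h : IsZF E) (hα : ¬ (Set.Iio α).Countable) {a a' : M} (ha : IsoOrd E α a)
    (ha' : Suc E a' a) (hA : ACRo E a) : ACRo E a' := by
  intro w s hw
  obtain ⟨j, hj, rfl, rfl⟩ := exists_j ha ha'
  refine neg_acr h hw (Z_inf hα) hj ?_ hA w s hw
  exact ncb_card ⟨h, hw, fun β hβ => hj β (hβ.trans le_self_add), Z_inf hα⟩ hα

theorem neg_two (h : IsZF E) (hα : ¬ (Set.Iio α).Countable) {a a' : M} (ha : IsoOrd E α a)
    (ha' : Suc E a' a) (hA : ACUo E a) : ACUo E a' := by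
  intro w s hw
  obtain ⟨j, hj, rfl, rfl⟩ := exists_j ha ha'
  refine neg_acu h hw (Z_inf hα) hj ?_ hA w s hw
  exact ncb_card ⟨h, hw, fun β hβ => hj β (hβ.trans le_self_add), Z_inf hα⟩ hα

end Pool.Agent.LibBU85
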